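import Pool.Agent.H89.RS.Def
import Pool.Agent.H20.TU.SmP

/-!
# [H43 WR] THEOREM WR (MP_e49dc9_ag, helper16): definitions

THEOREM WR: `X` a smooth threefold with trivial canonical class, `F` the class of a pencil without base points, `W` a divisor,
`τ` the nef threshold of `W` in the direction of `F`, `r ≠ 0` a section of `W + v F`, `y` a curve with `(W + (τ - 1) F) . y < 0`,
`μ` the order of `r` along `y`.  Then `τ - v ≤ 22 μ + 8`.  The proof: the Wronskian (in the directions of the fibres of the
pencil, of order `2 μ a`) of sections of multiples of `W + T₁ F`, `τ < T₁ ≤ τ + 1`, many of them multiples of `r ^ a`, is a section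
of a known class which does not vanish on the curve `y`.

* `Jac X J κ`: `J` is an alternating derivation in three arguments (`J a b c = (da ∧ db ∧ dc) / ω`, `ω` a rational `3`-form),
  `κ` is the divisor of `J` (minus the divisor of `ω`): `J a b c / κ.eq x` for `a b c` in the local ring at `x` is in the local
  ring, and is a unit for suitable `a b c`.  So `κ` is a canonical divisor up to the sign.
* `Pu X F u`: `1` and `u` are sections of `F` without common zeros (the pencil).
* `JetU X y J κ u d t`: a `Jet` (H89/RS/Def) at the curve `y`, whose derivations kill `u`.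
-/

set_option autoImplicit false

namespace Pool.Agent.H43.WR

open Pool.Agent.H54.RV Pool.Agent.H83.TU Pool.Agent.H83.TK Pool.Agent.H20.TD Pool.Agent.H20.TP Pool.Agent.H89.RS

variable {k K : Type} [Field k] [Field K] [Algebra k K]

/-- an alternating derivation in three arguments, with divisor `κ` -/
structure Jac (X : Mod k K) (J : K → K → K → K) (κ : Cart X) : Prop where
  add : ∀ a b c d, J (a + b) c d = J a c d + J b c d
  leib : ∀ a b c d, J (a * b) c d = a * J b c d + b * J a c d
  alg : ∀ (a : k) (c d : K), J (algebraMap k K a) c d = 0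
  s12 : ∀ a b c, J a b c = - J b a c
  s23 : ∀ a b c, J a b c = - J a c b
  mem : ∀ x, ∀ a ∈ X.O x, ∀ b ∈ X.O x, ∀ c ∈ X.O x, J a b c / κ.eq x ∈ X.O x
  gen : ∀ x, ∃ a ∈ X.O x, ∃ b ∈ X.O x, ∃ c ∈ X.O x, Un (X.O x) (J a b c / κ.eq x)

/-- `1` and `u` are sections of `F` without common zeros -/
structure Pu (X : Mod k K) (F : Cart X) (u : K) : Prop where
  one : ∀ x, F.eq x ∈ X.O x
  sec : ∀ x, u * F.eq x ∈ X.O x
  bpf : ∀ x, Un (X.O x) (F.eq x) ∨ Un (X.O x) (u * F.eq x)

/-- a jet at `y` whose derivations kill `u` -/
structure JetU (X : Mod k K) (y : X.P) (J : K → K → K → K) (κ : Cart X) (u : K) (d : Fin 2 → Derivation k K K)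
    (t : Fin 2 → K) : Prop where
  jet : Jet X y d t
  du : ∀ i, d i u = 0
  uun : Un (X.O y) u
  un : Un (X.O y) (J u (t 0) (t 1) / κ.eq y)
  jac : ∀ f g, J u f g = J u (t 0) (t 1) * (d 0 f * d 1 g - d 1 f * d 0 g)

end Pool.Agent.H43.WR
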