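import Pool.Agent.H43.WR.Mi
import Pool.Agent.H47.KN.Mul
import Pool.Agent.H20.TP.Sec

/-!
# [H43 WR Fin] THEOREM WR (MP_e49dc9_ag): (MI)

`mi`: `A` ample, `F` the class of a pencil without base points, `J` an alternating derivation with numerically trivial divisor.  There is an `M` such that for all `U` which are
nef after adding a multiple of `F`, and all `s` such that `U + s F` has a section: `U + (s + M T(A,U,F)) F` is nef.
-/

set_option autoImplicit false

namespace Pool.Agent.H43.WR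

open Pool.Agent.H54.RV Pool.Agent.H83.TU Pool.Agent.H83.TK Pool.Agent.H20.TD Pool.Agent.H20.TP Pool.Agent.H89.RS Pool.Agent.H20.RT
open Pool.Agent.H24.VP (RR)

variable {k K : Type} [Field k] [Field K] [Algebra k K] {X : Mod k K} {r : ℕ}
  {ν : Cart X →* Multiplicative (Fin r → ℤ)} {T : Cart X → Cart X → Cart X → ℝ} {l₀ : Cart X → ℝ} {c : ℝ} {TR : Tri3 r}
  {J : K → K → K → K} {κ F A : Cart X} {u : K}

/-- `F` is nef if `B + F` is ample for all ample `B` -/
theorem nef_of_amp (hX : IsVar X) (hν : NumR ν) (hA : Ample A) (hF : ∀ B : Cart X, Ample B → Ample (B * F)) :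
    cR ν F ∈ closure (CC ν) := by
  have h1 : ∀ n : ℕ, (1 / ((n : ℝ) + 1)) • cR ν A + cR ν F ∈ CC ν := by
    intro n
    have h2 : Ample (A * F ^ (n + 1)) := Pool.Agent.H47.KN.amp_powF hF hA (n + 1)
    have h3 := cc_amp hX hν h2
    have h4 := cc_smul (ν := ν) (c := 1 / ((n : ℝ) + 1)) (by positivity) h3
    have e : (1 / ((n : ℝ) + 1)) • rv (ci ν (A * F ^ (n + 1))) = (1 / ((n : ℝ) + 1)) • cR ν A + cR ν F := by
      rw [ci_mul, rv_add, ci_pow, rv_smul, smul_add, smul_smul]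
      congr 1
      have h5 : (1 / ((n : ℝ) + 1)) * (((n + 1 : ℕ) : ℤ) : ℝ) = 1 := by
        push_cast
        field_simp
      rw [h5, one_smul]
    rw [e] at h4
    exact h4
  rw [mem_closure_iff_seq_limit]
  refine ⟨fun n : ℕ => (1 / ((n : ℝ) + 1)) • cR ν A + cR ν F, h1, ?_⟩
  have h2 : Filter.Tendsto (fun n : ℕ => (1 / ((n : ℝ) + 1)) • cR ν A + cR ν F) Filter.atTop
      (nhds ((0 : ℝ) • cR ν A + cR ν F)) :=
    (tendsto_one_div_add_atTop_nhds_zero_nat.smul_const (cR ν A)).add_const (cR ν F)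
  rwa [zero_smul, zero_add] at h2

theorem mi [CharZero k] [IsAlgClosed k] [T0Space X.P] (hSm : Pool.Agent.H20.TU.SmP X) (h : Hyp X) (hr : RR T l₀ c)
    (hν : NumR ν) (hT : ∀ U V W, TR (cR ν U) (cR ν V) (cR ν W) = T U V W) (hJ : Jac X J κ) (hκ : NumZ κ) (hP : Pu X F u)
    (hFF : ∀ D, T F F D = 0) (hF : ∀ B : Cart X, Ample B → Ample (B * F)) (hA : Ample A) :
    ∃ M : ℝ, 0 ≤ M ∧ ∀ U : Cart X, (∃ t₀ : ℝ, cR ν U + t₀ • cR ν F ∈ closure (CC ν)) → ∀ s : ℤ, 0 < h0 (U * F ^ s) 1 →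
      cR ν U + ((s : ℝ) + M * T A U F) • cR ν F ∈ closure (CC ν) := by
  obtain ⟨n, -, hn⟩ := Pool.Agent.H47.KN.mul h hr hA hF hP hFF
  refine ⟨22 * n, by positivity, fun U ⟨t₀, ht₀⟩ s hs => ?_⟩
  obtain ⟨ρ, hρ0, hρ⟩ := ex_sec hs
  obtain ⟨R, hR⟩ : ∃ R, R = prin X ρ hρ0 * (U * F ^ s) := ⟨_, rfl⟩
  have e : ∀ x, R.eq x = ρ * (U * F ^ s).eq x := fun x => by
    rw [hR, mul_eq]
    rfl
  have hE : Effective R := by
    intro x
    rw [e]
    have := hρ x
    rwa [pow_one] at this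
  have hTR : T F R A = T A U F := by
    have h1 : T F R A = T A R F := by
      rw [hr.tri.s12, hr.tri.s23, hr.tri.s12]
    have h2 : ∀ D, T A F D = 0 → ∀ m : ℤ, T A (F ^ m) D = 0 := by
      intro D hD m
      have h3 : ∀ m : ℕ, T A (F ^ m) D = 0 := by
        intro m
        rw [hr.tri.s12, T_pow1 hr, hr.tri.s12, hD, mul_zero]
      rcases m with m | m
      · rw [Int.ofNat_eq_natCast, zpow_natCast]
        exact h3 m
      · rw [zpow_negSucc]
        have h4 : T A (F ^ (m + 1) * (F ^ (m + 1))⁻¹) D = T A (F ^ (m + 1)) D + T A ((F ^ (m + 1))⁻¹) D := by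
          rw [hr.tri.s12, hr.tri.add, hr.tri.s12, hr.tri.s12 ((F ^ (m + 1))⁻¹)]
        have h5 : T A 1 D = 0 := by
          have h6 : T (1 * 1) A D = T 1 A D + T 1 A D := hr.tri.add _ _ _ _
          rw [mul_one] at h6
          rw [hr.tri.s12]
          linarith
        rw [mul_inv_cancel, h5, h3] at h4
        linarith
    have h3 : T A F F = 0 := by rw [hr.tri.s12, hr.tri.s23, hFF]
    have h4 : T A R F = T A (prin X ρ hρ0) F + (T A U F + T A (F ^ s) F) := by
      rw [hR, hr.tri.s12, hr.tri.add, hr.tri.add, hr.tri.s12, hr.tri.s12 U, hr.tri.s12 (F ^ s)]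
    rw [h1, h4, h2 F h3, hr.tri.s23, Pool.Agent.H47.KN.prinT h hr, zero_add, add_zero]
  have h1 := mi_of (N := n * T A U F) hSm h hr hν hT hJ hκ hP hFF (nef_of_amp h.var hν hA hF) ht₀ hρ
    (fun y hy hf _ d t hd m hm => by
      have h2 := hn hy hf hd.jet hE m (by rwa [e])
      rwa [hTR] at h2)
  have h2 : (s : ℝ) + 22 * n * T A U F = s + 22 * (n * T A U F) := by ring
  rw [h2]
  exact h1

end Pool.Agent.H43.WR
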