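import Pool.Agent.H43.WR.Def
import Pool.Agent.H54.RV.B9
import Pool.Agent.H24.TK.Frm

/-!
# [H43 WR Va] THEOREM WR (MP_e49dc9_ag), (2): a multiple of an ample divisor separates the first jets

`va`: `B` ample.  There is an `n₁ ≥ 1` such that for all `y`, `d`, `t` as in `JetU` there are sections `g 0`, `g 1`, `g 2` of `n₁ B` with `g 0 * (B ^ n₁).eq y` a unit at `y` and
`J u (g 1 / g 0) (g 2 / g 0) / κ.eq y` a unit at `y`.

PROOF.  `X.P` is compact and `B` is ample: there are finitely many sections `s i` of multiples `n i • B`, `n i ≥ 1`, with `nz B (n i) (s i)` affine and covering `X.P`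
(compare `exists_fr`, `exists_bpf` in H24/TK, H20/TK; H54/RV/B9: `ext_sec`: for `f` regular on `nz B n s` the product `f * s ^ m` is a section of `m n B` for large `m`).
`X.sec U`, `U = nz B (n i) (s i)`, is generated by finitely many elements `f i j` (`IsVar.fg`).  Choose `m` such that all `s i ^ m' * f i j` are sections of `m' n i B` for
`m' ≥ m`, and `n₁` a multiple `≥ m n i` of all the `n i`, `n₁ = m' i * n i`.  Given `y`, choose `i` with `y ∈ U := nz B (n i) (s i)`, `g 0 := s i ^ m' i`.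
CLAIM: there are `j`, `j'` with `J u (f i j) (f i j') / κ.eq y` a unit at `y`; then `g 1 := g 0 * f i j`, `g 2 := g 0 * f i j'`.  Otherwise (the local ring) by
`hd.jac`, `hd.un` `D f f' := d 0 f * d 1 f' - d 1 f * d 0 f'` has residue `0` at `y` for all `f`, `f'` among the generators `f i j`.  The set of the `f ∈ X.O y` with
`X.rs y (D f (f i j')) = 0` for all `j'` is a subalgebra (`D` is a derivation in each argument, the `d` preserve `X.O y`), so it contains `X.sec U`; the same in the second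
argument: `X.rs y (D f f') = 0` for all `f f' ∈ X.sec U`.  Every `b ∈ X.O y` satisfies `b * s ∈ X.sec U` with `s ∈ X.sec U` a unit at `y` (`IsVar.frac`): `s * D b f' = D (b * s) f' - b * D s f'`, so
`X.rs y (D b f') = 0` for `b ∈ X.O y`, and in the same way in the second argument.  But `D (t 0) (t 1) = 1` (`hd.jet.dual`): a contradiction.
-/

set_option autoImplicit false

namespace Pool.Agent.H43.WR

open Pool.Agent.H54.RV Pool.Agent.H83.TU Pool.Agent.H83.TK Pool.Agent.H20.TD Pool.Agent.H20.TP Pool.Agent.H89.RS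

variable {k K : Type} [Field k] [Field K] [Algebra k K] {X : Mod k K} {J : K → K → K → K} {κ B : Cart X} {u : K}

/-- the determinant of the derivatives -/
private def dt (d : Fin 2 → Derivation k K K) (f g : K) : K := d 0 f * d 1 g - d 1 f * d 0 g

private theorem dt_mem {y : X.P} {d : Fin 2 → Derivation k K K} (hd : ∀ i, ∀ f ∈ X.O y, d i f ∈ X.O y) {f g : K}
    (hf : f ∈ X.O y) (hg : g ∈ X.O y) : dt d f g ∈ X.O y :=
  (X.O y).sub_mem ((X.O y).mul_mem (hd 0 f hf) (hd 1 g hg)) ((X.O y).mul_mem (hd 1 f hf) (hd 0 g hg))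

private theorem dt_mul (d : Fin 2 → Derivation k K K) (f g h : K) :
    dt d (f * g) h = f * dt d g h + g * dt d f h := by
  unfold dt
  rw [Derivation.leibniz, Derivation.leibniz, smul_eq_mul, smul_eq_mul, smul_eq_mul, smul_eq_mul]
  ring

private theorem dt_add (d : Fin 2 → Derivation k K K) (f g h : K) :
    dt d (f + g) h = dt d f h + dt d g h := by
  unfold dt
  rw [map_add, map_add]
  ring

private theorem dt_swap (d : Fin 2 → Derivation k K K) (f g : K) : dt d f g = (-1 : K) * dt d g f := by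
  unfold dt
  ring

/-- vanishing for generators of the ring of an affine neighbourhood -/
private theorem dt_key (hX : IsVar X) {U : Set X.P} (hU : X.aff U) {y : X.P} (hy : y ∈ U)
    {d : Fin 2 → Derivation k K K} (hd : ∀ i, ∀ f ∈ X.O y, d i f ∈ X.O y) {G : Set K}
    (hG : Algebra.adjoin k G = X.sec U) {g : K} (hg : g ∈ X.O y) (h : ∀ f ∈ G, X.rs y (dt d f g) = 0) :
    ∀ b ∈ X.O y, X.rs y (dt d b g) = 0 := by
  have hle : ∀ a ∈ X.sec U, a ∈ X.O y := fun a ha => (mem_sec U a).1 ha y hy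
  have h1 : ∀ f ∈ Algebra.adjoin k G, X.rs y (dt d f g) = 0 := by
    intro f hf
    induction hf using Algebra.adjoin_induction with
    | mem x hx => exact h x hx
    | algebraMap r =>
      have h2 : dt d (algebraMap k K r) g = 0 := by
        unfold dt
        rw [Derivation.map_algebraMap, Derivation.map_algebraMap]
        ring
      rw [h2, rs_zero]
    | add a b ha hb iha ihb =>
      rw [hG] at ha hb
      rw [dt_add, rs_add y (dt_mem hd (hle a ha) hg) (dt_mem hd (hle b hb) hg), iha, ihb, add_zero]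
    | mul a b ha hb iha ihb =>
      rw [hG] at ha hb
      have ha' := hle a ha
      have hb' := hle b hb
      rw [dt_mul, rs_add y ((X.O y).mul_mem ha' (dt_mem hd hb' hg)) ((X.O y).mul_mem hb' (dt_mem hd ha' hg)),
        rs_mul y ha' (dt_mem hd hb' hg), rs_mul y hb' (dt_mem hd ha' hg), iha, ihb, mul_zero, mul_zero, add_zero]
  rw [hG] at h1
  intro b hb
  obtain ⟨s, hs, hs1, hs2⟩ := hX.frac U y hU hy b hb
  have e1 := h1 _ hs2
  rw [dt_mul, rs_add y ((X.O y).mul_mem hb (dt_mem hd hs1.2.1 hg)) ((X.O y).mul_mem hs1.2.1 (dt_mem hd hb hg)),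
    rs_mul y hb (dt_mem hd hs1.2.1 hg), rs_mul y hs1.2.1 (dt_mem hd hb hg), h1 s hs, mul_zero, zero_add] at e1
  exact (mul_eq_zero.1 e1).resolve_left ((rs_ne y hs1.2.1).2 hs1)

private theorem dt_exists (hX : IsVar X) {U : Set X.P} (hU : X.aff U) {y : X.P} (hy : y ∈ U)
    {d : Fin 2 → Derivation k K K} {t : Fin 2 → K} (hd : Jet X y d t) {G : Set K}
    (hG : Algebra.adjoin k G = X.sec U) : ∃ f ∈ G, ∃ g ∈ G, Un (X.O y) (dt d f g) := by
  by_contra hcon
  push Not at hcon
  have hGO : ∀ f ∈ G, f ∈ X.O y := fun f hf => by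
    have h1 : f ∈ X.sec U := by
      rw [← hG]
      exact Algebra.subset_adjoin hf
    exact (mem_sec U f).1 h1 y hy
  have h1 : ∀ f ∈ G, ∀ g ∈ G, X.rs y (dt d f g) = 0 := by
    intro f hf g hg
    by_contra h2
    exact hcon f hf g hg ((rs_ne y (dt_mem hd.st (hGO f hf) (hGO g hg))).1 h2)
  have h2 : ∀ g ∈ G, ∀ b ∈ X.O y, X.rs y (dt d b g) = 0 := fun g hg =>
    dt_key hX hU hy hd.st hG (hGO g hg) fun f hf => h1 f hf g hg
  have h3 : ∀ c ∈ X.O y, ∀ b ∈ X.O y, X.rs y (dt d b c) = 0 := fun c hc =>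
    dt_key hX hU hy hd.st hG hc fun f hf => by
      rw [dt_swap, rs_mul y ((X.O y).neg_mem (X.O y).one_mem) (dt_mem hd.st hc (hGO f hf)), h2 f hf c hc, mul_zero]
  have h4 := h3 (t 1) (hd.mem 1) (t 0) (hd.mem 0)
  have h5 : dt d (t 0) (t 1) = 1 := by
    unfold dt
    rw [hd.dual, hd.dual, hd.dual, hd.dual, if_pos rfl, if_pos rfl, if_neg (by decide), if_neg (by decide)]
    ring
  rw [h5, rs_one] at h4
  exact one_ne_zero h4

theorem va [CharZero k] (h : Hyp X) (hJ : Jac X J κ) (hB : Ample B) :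
    ∃ n₁ : ℕ, 1 ≤ n₁ ∧ ∀ (y : X.P) (d : Fin 2 → Derivation k K K) (t : Fin 2 → K), JetU X y J κ u d t →
      ∃ g : Fin 3 → K, (∀ i, Sec (B ^ n₁) 1 (g i)) ∧ Un (X.O y) (g 0 * (B ^ n₁).eq y) ∧
        Un (X.O y) (J u (g 1 / g 0) (g 2 / g 0) / κ.eq y) := by
  classical
  have hX := h.var
  obtain ⟨m, hm, r, s, hF⟩ := Pool.Agent.H24.TK.exists_fr hX B hB
  have hG : ∀ i : Fin r, ∃ G : Finset K, (nz (B ^ m) 1 (s i)).Nonempty →
      Algebra.adjoin k (G : Set K) = X.sec (nz (B ^ m) 1 (s i)) := by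
    intro i
    by_cases hne : (nz (B ^ m) 1 (s i)).Nonempty
    · obtain ⟨G, hG⟩ := hX.fg _ (hF.aff i) hne
      exact ⟨G, fun _ => hG⟩
    · exact ⟨∅, fun h1 => absurd h1 hne⟩
  choose G hG using hG
  have hN : ∀ (i : Fin r) (f : K), ∃ N : ℕ, f ∈ G i → ∀ j ≥ N, ∀ y,
      s i ^ j * f * (((B ^ m).eq y ^ 1) ^ j * (1 : Cart X).eq y) ∈ X.O y := by
    intro i f
    by_cases hf : f ∈ G i
    · obtain ⟨N, hN⟩ := ext_sec hX (B ^ m) 1 1 (s i) f (hF.sec i) (fun y hy => by
        rw [one_eq, mul_one]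
        have h1 : f ∈ X.sec (nz (B ^ m) 1 (s i)) := by
          rw [← hG i ⟨y, hy⟩]
          exact Algebra.subset_adjoin hf
        exact (mem_sec _ f).1 h1 y hy)
      exact ⟨N, fun _ => hN⟩
    · exact ⟨0, fun h1 => absurd h1 hf⟩
  choose N hN using hN
  obtain ⟨M, hM⟩ : ∃ M : ℕ, M = (Finset.univ.sup fun i => (G i).sup (N i)) + 1 := ⟨_, rfl⟩
  have hNM : ∀ (i : Fin r), ∀ f ∈ G i, N i f ≤ M := by
    intro i f hf
    have h1 : N i f ≤ (G i).sup (N i) := Finset.le_sup hf
    have h2 : (G i).sup (N i) ≤ Finset.univ.sup fun i => (G i).sup (N i) :=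
      Finset.le_sup (f := fun i => (G i).sup (N i)) (Finset.mem_univ i)
    omega
  have heq : ∀ y, (B ^ (m * M)).eq y = ((B ^ m).eq y) ^ M := by
    intro y
    rw [pow_eq, pow_eq, pow_mul]
  refine ⟨m * M, Nat.mul_pos hm (by omega), fun y d t hd => ?_⟩
  obtain ⟨i, hi⟩ := hF.cov y
  obtain ⟨f, hf, g, hg, hfg⟩ := dt_exists hX (hF.aff i) hi hd.jet (hG i ⟨y, hi⟩)
  have hsi : s i ≠ 0 := by
    intro h0
    apply hi.1
    rw [h0, zero_mul]
  have hsec : ∀ f ∈ G i, Sec (B ^ (m * M)) 1 (s i ^ M * f) := by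
    intro f hf x
    have h1 := hN i f hf M (hNM i f hf) x
    rw [one_eq, mul_one, pow_one] at h1
    rw [pow_one, heq]
    exact h1
  refine ⟨![s i ^ M, s i ^ M * f, s i ^ M * g], fun j => ?_, ?_, ?_⟩
  · fin_cases j
    · intro x
      have h1 := (X.O x).pow_mem (hF.sec i x) M
      rw [pow_one, mul_pow] at h1
      change s i ^ M * (B ^ (m * M)).eq x ^ 1 ∈ X.O x
      rw [pow_one, heq]
      exact h1
    · exact hsec f hf
    · exact hsec g hg
  · change Un (X.O y) (s i ^ M * (B ^ (m * M)).eq y)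
    rw [heq, ← mul_pow]
    have h1 : Un (X.O y) (s i * (B ^ m).eq y ^ 1) := hi
    rw [pow_one] at h1
    exact un_pow h1 M
  · change Un (X.O y) (J u (s i ^ M * f / s i ^ M) (s i ^ M * g / s i ^ M) / κ.eq y)
    have hsM : s i ^ M ≠ 0 := pow_ne_zero M hsi
    rw [mul_div_cancel_left₀ _ hsM, mul_div_cancel_left₀ _ hsM, hd.jac]
    have h1 : J u (t 0) (t 1) * (d 0 f * d 1 g - d 1 f * d 0 g) / κ.eq y =
        J u (t 0) (t 1) / κ.eq y * dt d f g := by
      unfold dt
      ring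
    rw [h1]
    exact un_mul hd.un hfg

end Pool.Agent.H43.WR
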