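import Pool.Agent.H41.WR.Wd
import Pool.Agent.H16.WR.Jsp

/-!
# [H43 WR Jsp] THEOREM WR (MP_e49dc9_ag), (2): the jets of the sections span

`jsp`: `g 0` is a unit at `y`, `J u (g 1 / g 0) (g 2 / g 0) / κ.eq y` is a unit at `y`, and the products `g 0 ^ (N - a - b) * g 1 ^ a * g 2 ^ b` are
combinations over `k` of products `u ^ j * f`, `f ∈ G`.  Then the jets of order `≤ i` of the elements of `G` span, `i ≤ N`.

PROOF.  `x₁ = g 1 / g 0`, `x₂ = g 2 / g 0` are in `X.O y`.  `δ = pr hJ u x₁ x₂` (H41/WR/Wd): `δ 0 x₁ = 1`, `δ 0 x₂ = 0`, `δ 1 x₁ = 0`, `δ 1 x₂ = 1`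
(`pr_zero`, `pr_one`, `j_self`).  So `wd δ a b (x₁ ^ m * x₂ ^ n) = m! / (m - a)! * n! / (n - b)! * x₁ ^ (m - a) * x₂ ^ (n - b)` if `a ≤ m`, `b ≤ n` and `0`
otherwise (`Nat.descFactorial`).  For the family `φ l = x₁ ^ l.1.1 * x₂ ^ l.1.2`, `l : Ix i`, the matrix `wd δ p.1.1 p.1.2 (φ l)` is zero unless `p ≤ l` in both
entries, and has the diagonal `a! b!`: it is triangular for the lexicographic order of `Ix i` (`Matrix.det_of_upperTriangular`; a linear order by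
`LinearOrder.lift'` of `toLex`), so `Wn δ i φ = ∏ a! b!` (`wn_wd`) is a unit of `X.O y`.  `wn_pr`: `Wn d i φ = Wn δ i φ * (J u x₁ x₂ / J u (t 0) (t 1)) ^ wi i`, and
`J u x₁ x₂ / J u (t 0) (t 1)` is the quotient of two units at `y` (`hj`, `hd.un`): so `Wn d i φ` is a unit at `y`.  `wn_mul` with the factor `g 0 ^ N`: also
`Wn d i ψ` for `ψ l = g 0 ^ N * φ l = g 0 ^ (N - a - b) * g 1 ^ a * g 2 ^ b`, `l = (a, b)`.  By `wn_rs` the matrix of the residues `X.rs y (wd d p (ψ l)) = cv X y d i (ψ l) p`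
has determinant `≠ 0`: its columns `cv X y d i (ψ l)` span `Ix i → X.kap y` (`Matrix` lemmas: `linearIndependent_cols`, `span_eq_top_of_linearIndependent..`).
Every `ψ l` is in the span over `k` of the `u ^ j * f`, `f ∈ G`: `cv X y d i` is additive on `X.O y` and `k`-linear (`wd_add`, `wd_smul`, `rs_add`, ..), and
`cv X y d i (u ^ j * f) = X.rs y u ^ j • cv X y d i f` because `d 0`, `d 1` kill `u` (`hd.du`; `wd d a b (u ^ j * f) = u ^ j * wd d a b f`), `u ∈ X.O y` (`hd.uun`).  So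
`cv X y d i (ψ l)` is in the span of the `cv X y d i f`, `f ∈ G`.
-/

set_option autoImplicit false

namespace Pool.Agent.H43.WR

open Pool.Agent.H16.WR (Ix cv)
open Pool.Agent.H54.RV Pool.Agent.H83.TU Pool.Agent.H83.TK Pool.Agent.H20.TD Pool.Agent.H20.TP Pool.Agent.H89.RS

variable {k K : Type} [Field k] [Field K] [Algebra k K] {X : Mod k K} {J : K → K → K → K} {κ : Cart X} {u : K} {y : X.P}
  {d : Fin 2 → Derivation k K K} {t : Fin 2 → K}

theorem jsp [CharZero k] (hJ : Jac X J κ) (hd : JetU X y J κ u d t) {g : Fin 3 → K} (hg : ∀ i, g i ∈ X.O y)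
    (h0 : Un (X.O y) (g 0)) (hj : Un (X.O y) (J u (g 1 / g 0) (g 2 / g 0) / κ.eq y)) {i N : ℕ} (hi : i ≤ N)
    {G : Set K} (hG : ∀ f ∈ G, f ∈ X.O y)
    (hs : ∀ a b, a + b ≤ N → g 0 ^ (N - a - b) * g 1 ^ a * g 2 ^ b ∈
      Submodule.span k {x : K | ∃ (j : ℕ) (f : K), f ∈ G ∧ x = u ^ j * f}) :
    Submodule.span (X.kap y) (cv X y d i '' G) = ⊤ := by
  have hD : Un (X.O y) (d 0 (g 1 / g 0) * d 1 (g 2 / g 0) - d 1 (g 1 / g 0) * d 0 (g 2 / g 0)) := by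
    have h1 := hd.jac (g 1 / g 0) (g 2 / g 0)
    have h2 : J u (g 1 / g 0) (g 2 / g 0) / κ.eq y * (J u (t 0) (t 1) / κ.eq y)⁻¹ =
        d 0 (g 1 / g 0) * d 1 (g 2 / g 0) - d 1 (g 1 / g 0) * d 0 (g 2 / g 0) := by
      have h3 : J u (t 0) (t 1) ≠ 0 := by
        intro h4
        apply hd.un.1
        rw [h4, zero_div]
      have h4 := κ.ne y
      rw [h1]
      field_simp
    rw [← h2]
    exact un_mul hj (un_inv hd.un)
  refine Pool.Agent.H16.WR.span_u hd.jet i hd.uun.2.1 hd.du hG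
    (G' := {f : K | ∃ p q r : ℕ, p + q + r = N ∧ f = g 0 ^ p * g 1 ^ q * g 2 ^ r}) ?_ ?_
  · rintro _ ⟨p, q, r, hpqr, rfl⟩
    have h1 := hs q r (by omega)
    have h2 : N - q - r = p := by omega
    rwa [h2] at h1
  · exact Pool.Agent.H16.WR.jsp hd.jet h0 (hg 1) (hg 2) hD hi fun p q r hpqr => ⟨p, q, r, hpqr, rfl⟩

end Pool.Agent.H43.WR
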