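import Pool.Agent.H43.WR.GenU
import Pool.Agent.H16.WR.Tay
import Pool.Agent.H20.TP.Cur

/-!
# [H43 WR Ord] THEOREM WR (MP_e49dc9_ag): orders of vanishing and degrees, lemmas
-/

set_option autoImplicit false

namespace Pool.Agent.H43.WR

open Pool.Agent.H16.WR (Ix tay tay_mul ord_pow vn_iff)
open Pool.Agent.H54.RV Pool.Agent.H83.TU Pool.Agent.H83.TK Pool.Agent.H20.TD Pool.Agent.H20.TP Pool.Agent.H89.RS

variable {k K : Type} [Field k] [Field K] [Algebra k K] {X : Mod k K} {y : X.P} {d : Fin 2 → Derivation k K K}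
  {t : Fin 2 → K}

theorem ord_mul [CharZero k] (hJ : Jet X y d t) {f g : K} (hf : f ∈ X.O y) (hg : g ∈ X.O y) :
    (tay X y d (f * g)).order = (tay X y d f).order + (tay X y d g).order := by
  rw [tay_mul hJ hf hg, MvPowerSeries.order_mul]

theorem ord_un [CharZero k] (hJ : Jet X y d t) {a : K} (ha : Un (X.O y) a) : (tay X y d a).order = 0 := by
  have h1 := ord_mul hJ ha.2.1 ha.2.2
  rw [mul_inv_cancel₀ ha.1] at h1
  have h2 := ord_pow hJ ha.2.1 0
  rw [pow_zero, Nat.cast_zero, zero_mul] at h2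
  rw [h2] at h1
  exact (add_eq_zero.1 h1.symm).1

theorem ord_un_mul [CharZero k] (hJ : Jet X y d t) {a f : K} (ha : Un (X.O y) a) (hf : f ∈ X.O y) :
    (tay X y d (f * a)).order = (tay X y d f).order := by
  rw [ord_mul hJ hf ha.2.1, ord_un hJ ha, add_zero]

theorem un_of_ord [CharZero k] {f : K} (hf : f ∈ X.O y) (h0 : (tay X y d f).order = 0) : Un (X.O y) f := by
  rw [← rs_ne y hf]
  intro h1
  have h2 : Vn X y d 1 f := by
    refine ⟨hf, fun a b hab => ?_⟩
    have ha : a = 0 := by omega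
    have hb : b = 0 := by omega
    subst ha
    subst hb
    exact h1
  rw [vn_iff hf, h0] at h2
  exact absurd h2 (by norm_num)

theorem dz_zpow [CharZero k] (hX : IsVar X) (hA : ∃ A : Cart X, Ample A) {x : X.P}
    (hx : Algebra.trdeg k (X.kap x) = 1) (U : Cart X) (n : ℤ) : dz hX x (U ^ n) = n * dz hX x U := by
  rcases n with n | n
  · rw [Int.ofNat_eq_natCast, zpow_natCast, dz_pow hX hA hx]
  · rw [zpow_negSucc, dz_inv hX hA hx, dz_pow hX hA hx, Int.negSucc_eq]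
    push_cast
    ring

theorem sec_dz [CharZero k] (hX : IsVar X) (hA : ∃ A : Cart X, Ample A) (hy : Algebra.trdeg k (X.kap y) = 1)
    {E : Cart X} {s : K} (hs : Sec E 1 s) (hu : Un (X.O y) (s * E.eq y)) : 0 ≤ dz hX y E := by
  have h1 : (resS hX y E 1 ⟨s, hs⟩ : X.kap y) ≠ 0 := by
    rw [resS_coe]
    rw [rs_ne y (hs y), pow_one]
    exact hu
  exact dz_nn hX hA hy (resS hX y E 1 ⟨s, hs⟩).2 h1

theorem pz_eq (W F : Cart X) (n : ℕ) (m : ℤ) (x : X.P) : (W ^ n * F ^ m).eq x = W.eq x ^ n * F.eq x ^ m := by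
  rw [mul_eq, pow_eq, zpow_eq]

/-- a section, with the local equation of the pencil removed -/
theorem sec_loc {W F : Cart X} (hF : Un (X.O y) (F.eq y)) {n : ℕ} {m : ℤ} {s : K} (hs : Sec (W ^ n * F ^ m) 1 s) :
    s * W.eq y ^ n ∈ X.O y := by
  have h1 := hs y
  rw [pow_one, pz_eq] at h1
  have h2 := F.ne y
  have e : s * W.eq y ^ n = s * (W.eq y ^ n * F.eq y ^ m) * (F.eq y ^ m)⁻¹ := by
    have h3 : F.eq y ^ m ≠ 0 := zpow_ne_zero _ h2
    field_simp
  rw [e]
  exact mul_mem h1 (un_zpow hF m).2.2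

end Pool.Agent.H43.WR
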