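import Pool.Agent.H43.WR.Def
import Pool.Agent.H20.TP.Cur

/-!
# [H43 WR Utr] THEOREM WR (MP_e49dc9_ag): the pencil on a curve of positive degree

`u_tr`: `1`, `u` sections of `F` without common zeros, `0 < dz y F` for the curve `y`: `u` and `F.eq y` are units at `y`, and the residue
of `u` is transcendental over `k`.

PROOF.  (A) If `v : K` is such that `v * F.eq x ∈ X.O x` is a unit of `X.O x` for all `x` on the curve (`y ⤳ x`), then `dz y F = 0`: `v ≠ 0`; the
residue `c := X.rs y (v * F.eq y)` is not zero and `c * (resD hX y F).eq x = X.rs y (v * F.eq x)` is a unit of the local ring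
(`rs_sec`, `un_subO`), so `resD hX y F` and `prin _ c⁻¹` have quotients which are units at all points: `dg (resD hX y F) = dg (prin ..) = 0` (`dg_le`
of H41/TK/DG in both directions, `dg_prin`; `crv_of`).
(B) Let `v` be `1` or `u` or `u - a`, `a : k`, and let `v'` be the other one (`u`, `1`, `1`).  `v`, `v'` are sections of `F` without common zeros
(for `u - a`: at a point where `F.eq x` is not a unit `u * F.eq x` is a unit, and `a * F.eq x` is not a unit: `un_add`-like, local
ring).  If `v * F.eq y` is not a unit at `y`, then for all `x` with `y ⤳ x` `v * F.eq x = v * F.eq y * (F.eq x / F.eq y)` is not a unit at `y`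
(`quo_un`), so it is not a unit at `x` (`un_mono`), so `v' * F.eq x` is a unit at `x`: `dz y F = 0` by (A): a contradiction.
So `F.eq y`, `u * F.eq y`, `(u - a) * F.eq y` are units at `y`: `u` is a unit, `X.rs y u ≠ a` for all `a : k`; `k` is algebraically closed, so `X.rs y u` is
transcendental (`n1_tr` in H39/TZ/N1, private: copy).
-/

set_option autoImplicit false

namespace Pool.Agent.H43.WR

open Pool.Agent.H54.RV Pool.Agent.H83.TU Pool.Agent.H83.TK Pool.Agent.H20.TD Pool.Agent.H20.TP Pool.Agent.H89.RS

variable {k K : Type} [Field k] [Field K] [Algebra k K] {X : Mod k K} {F : Cart X} {u : K}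

/-- a divisor which is principal on the curve -/
private theorem dz_zero [CharZero k] (h : Hyp X) {y : X.P} (hy : Algebra.trdeg k (X.kap y) = 1) (v : K)
    (hv : ∀ x, y ⤳ x → Un (X.O x) (v * F.eq x)) : dz h.var y F = 0 := by
  have hC := crv_of h.var h.amp hy
  have h1 := hv y specializes_rfl
  have hc : X.rs y (v * F.eq y) ≠ 0 := (rs_ne y h1.2.1).2 h1
  have key : ∀ x : (subM h.var y).P, Un ((subM h.var y).O x) (X.rs y (v * F.eq y) * (resD h.var y F).eq x) := by
    intro x
    have h2 := rs_sec h.var y F 1 v x (by rw [pow_one]; exact (hv x.1 x.2).2.1)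
    rw [pow_one, pow_one, pow_one] at h2
    rw [h2]
    exact (un_subO h.var x.2 (hv x.1 x.2).2.1).2 (hv x.1 x.2)
  obtain ⟨P, hP⟩ : ∃ P : Cart (subM h.var y), P = prin (subM h.var y) (X.rs y (v * F.eq y))⁻¹ (inv_ne_zero hc) := ⟨_, rfl⟩
  have hPe : ∀ x, P.eq x = (X.rs y (v * F.eq y))⁻¹ := fun x => by rw [hP]; rfl
  have hP0 : H41.TK.dg P = 0 := by rw [hP]; exact H41.TK.dg_prin hC _ _
  have a1 := H41.TK.dg_le hC (resD h.var y F) P (fun x => by
    rw [hPe, div_inv_eq_mul, mul_comm]
    exact (key x).2.1)
  have a2 := H41.TK.dg_le hC P (resD h.var y F) (fun x => by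
    rw [hPe, div_eq_mul_inv, ← mul_inv]
    exact (key x).2.2)
  unfold dz
  omega

/-- sections without common zeros are units at the curve -/
private theorem un_sec [CharZero k] (h : Hyp X) {y : X.P} (hy : Algebra.trdeg k (X.kap y) = 1)
    (hf : 0 < dz h.var y F) (v v' : K) (hun : ∀ x, Un (X.O x) (v * F.eq x) ∨ Un (X.O x) (v' * F.eq x)) :
    Un (X.O y) (v * F.eq y) := by
  by_contra hcon
  have h1 := dz_zero (F := F) h hy v' (fun x hx => by
    refine (hun x).resolve_left fun h2 => hcon ?_
    have h3 := un_mono (h.var.spec y x hx) h2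
    have h4 : v * F.eq x = v * F.eq y * (F.eq x / F.eq y) := by
      have := F.ne y
      field_simp
    rw [h4] at h3
    exact (un_mul_un (quo_un F y x hx)).1 h3)
  omega

private theorem tr_of [IsAlgClosed k] {κ : Type} [Field κ] [Algebra k κ] (a : κ)
    (h : ¬ ∃ c : k, algebraMap k κ c = a) : Transcendental k a := by
  intro h1
  have h2 : IsIntegral k a := h1.isIntegral
  have h3 : (minpoly k a).degree = 1 :=
    IsAlgClosed.degree_eq_one_of_irreducible k (minpoly.irreducible h2)
  exact h (minpoly.mem_range_of_degree_eq_one k a h3)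

theorem u_tr [CharZero k] [IsAlgClosed k] (h : Hyp X) (hP : Pu X F u) {y : X.P}
    (hy : Algebra.trdeg k (X.kap y) = 1) (hf : 0 < dz h.var y F) :
    Un (X.O y) u ∧ Un (X.O y) (F.eq y) ∧ Transcendental k (X.rs y u) := by
  have u1 : Un (X.O y) (1 * F.eq y) := un_sec h hy hf 1 u fun x => by
    rw [one_mul]
    exact hP.bpf x
  have u2 : Un (X.O y) (u * F.eq y) := un_sec h hy hf u 1 fun x => by
    rw [one_mul]
    exact (hP.bpf x).symm
  have u3 : ∀ a : k, Un (X.O y) ((u - algebraMap k K a) * F.eq y) := by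
    intro a
    refine un_sec h hy hf _ 1 fun x => ?_
    rw [one_mul]
    rcases hP.bpf x with h1 | h1
    · exact Or.inr h1
    · have ha : algebraMap k K a ∈ X.O x := (X.O x).algebraMap_mem a
      have e1 : u * F.eq x = (u - algebraMap k K a) * F.eq x + algebraMap k K a * F.eq x := by ring
      have m1 : algebraMap k K a * F.eq x ∈ X.O x := mul_mem ha (hP.one x)
      have m2 : (u - algebraMap k K a) * F.eq x ∈ X.O x := by
        have e2 : (u - algebraMap k K a) * F.eq x = u * F.eq x - algebraMap k K a * F.eq x := by ring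
        rw [e2]
        exact sub_mem (hP.sec x) m1
      rw [e1] at h1
      rcases un_add m2 m1 h1 with h2 | h2
      · exact Or.inl h2
      · exact Or.inr ((un_mul_iff ha (hP.one x)).1 h2).2
  rw [one_mul] at u1
  have hu : Un (X.O y) u := (un_mul_un u1).1 u2
  refine ⟨hu, u1, tr_of _ ?_⟩
  rintro ⟨a, ha⟩
  have h1 : Un (X.O y) (u - algebraMap k K a) := (un_mul_un u1).1 (u3 a)
  refine (rs_ne y h1.2.1).2 h1 ?_
  have h2 : X.rs y (u - algebraMap k K a) + X.rs y (algebraMap k K a) = X.rs y u := by
    rw [← rs_add y h1.2.1 ((X.O y).algebraMap_mem a), sub_add_cancel]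
  rw [rs_alg, ha] at h2
  exact add_eq_right.1 h2

end Pool.Agent.H43.WR
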