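import Pool.Agent.H43.WR.GenU
import Pool.Agent.H43.WR.Jsp
import Pool.Agent.H43.WR.Utr
import Pool.Agent.H43.WR.Ord
import Pool.Agent.H41.WR.Loc

/-!
# [H43 WR Wr] THEOREM WR (MP_e49dc9_ag): the inequality

`wr_main`: `r` a section of `W + v F` of order `μ` at the curve `y`; `q W + p₀ F`, `q W + p₁ F`, `W + T₂ F` ample, `p₀ < p₁ < q T₂`;
`(W + (p₁ / q) F) . y < 2 F . y`; `W + T₂ F` has sections `g 0`, `g 1`, `g 2` which separate the first jets at `y`.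
Then `p₁ / q - v ≤ 64 μ / 3 + 8`.

PROOF.  `T₁ = p₁ / q`, `f = F . y`, `e = W.eq y`; `F.eq y` is a unit at `y` (`u_tr`), so `s * e ^ N ∈ X.O y` for the sections `s` of `N W + m F`, any `m`.
`μ = 0`: `r` restricts to a nonzero section on `y`, `0 ≤ W.y + v f`, so `(p₁ - q v) f < 2 q f`.
`μ ≥ 1`: `gen_u` for `V = W ^ q`, `p₀ < p₁ < p₂ = q T₂`: `n₀`.  `a = q (n₀ + 1)`, `b = a μ`, `i = 2 b`, `N = i + a`.  `G₁` = the `s * e ^ i`, `s` a section of `i (W + T₁ F)`;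
`G₂` = the `s * e ^ N`, `s` a section of `N (W + T₁ F)`.  `jsp`, `gen_u`: their jets of order `≤ i` span.  `col` with `ρ = (r * e) ^ a`, of order `b` (`ord_pow`): columns
`φ l`, `φ l = ψ l * e ^ N`; `ψ l = r ^ a * s` with a section `s` of `i (W + T₁ F)` for `l ∈ S`, `card S = card (Ix b)`, and a section of `N (W + T₁ F)` for the other `l`.
`glo` with `D = W ^ N`, `m l = a v + i T₁` for `l ∈ S`, `N T₁` for the others: `Wn d i ψ * J u (t 0) (t 1) ^ w` is a section of `E = M N W + (∑ m l) F + 2 w F - w κ`, and a unit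
at `y` (`wn_un`, `wn_mul`), so `0 ≤ E . y` (`dz_nn`, `rs_sec`), `κ . y = 0` (`dz_numz`).  `wr_num`.
-/

set_option autoImplicit false

namespace Pool.Agent.H43.WR

open Pool.Agent.H16.WR (Ix cv tay ord_pow col wr_num card_ix)
open Pool.Agent.H41.WR (Wn wi wi_eq wn_mul brk_cm wn_un glo)
open Pool.Agent.H54.RV Pool.Agent.H83.TU Pool.Agent.H83.TK Pool.Agent.H20.TD Pool.Agent.H20.TP Pool.Agent.H89.RS
open Pool.Agent.H24.VP (RR)

variable {k K : Type} [Field k] [Field K] [Algebra k K] {X : Mod k K} {T : Cart X → Cart X → Cart X → ℝ} {l : Cart X → ℝ} {c : ℝ}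
  {J : K → K → K → K} {κ F : Cart X} {u : K} {y : X.P} {d : Fin 2 → Derivation k K K} {t : Fin 2 → K}

/-- the jets of the sections of `q n (W + T₁ F)` span -/
private theorem spn [CharZero k] (h : Hyp X) (hr : RR T l c) (hJ : Jac X J κ) (hP : Pu X F u)
    (hFF : ∀ D, T F F D = 0) {W : Cart X} {q : ℕ} {p₀ p₁ T₂ : ℤ} (h01 : p₀ < p₁) (h12 : p₁ < q * T₂)
    (hq : 1 ≤ q)
    (hA0 : Ample (W ^ q * F ^ p₀)) (hA1 : Ample (W ^ q * F ^ p₁)) (hA2 : Ample (W * F ^ T₂))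
    (hd : JetU X y J κ u d t) (hFu : Un (X.O y) (F.eq y))
    {g : Fin 3 → K} (hg : ∀ i, Sec (W * F ^ T₂) 1 (g i)) (hg0 : Un (X.O y) (g 0 * (W * F ^ T₂).eq y))
    (hgJ : Un (X.O y) (J u (g 1 / g 0) (g 2 / g 0) / κ.eq y)) :
    ∃ n₀ : ℕ, ∀ n ≥ n₀, ∀ i ≤ q * n, Submodule.span (X.kap y)
      (cv X y d i '' {f | ∃ s, Sec (W ^ (q * n) * F ^ ((n : ℤ) * p₁)) 1 s ∧ f = s * W.eq y ^ (q * n)}) = ⊤ := by
  have hA2' : Ample (W ^ q * F ^ (q * T₂ : ℤ)) := by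
    have e : W ^ q * F ^ (q * T₂ : ℤ) = (W * F ^ T₂) ^ q := by
      rw [mul_pow, ← zpow_natCast (F ^ T₂) q, ← zpow_mul, mul_comm T₂]
    rw [e]
    exact ample_pow _ q hq hA2
  obtain ⟨n₀, hn₀⟩ := gen_u h hr hP hd.uun.1 hFF (V := W ^ q) h01 h12 hA0 hA1 hA2'
  refine ⟨n₀, fun n hn i hi => ?_⟩
  have he0 : W.eq y ≠ 0 := W.ne y
  have hgO : ∀ j, g j * W.eq y ∈ X.O y := by
    intro j
    have h1 := hg j
    rw [← pow_one W] at h1
    have h2 := sec_loc hFu h1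
    rwa [pow_one] at h2
  have hg0' : Un (X.O y) (g 0 * W.eq y) := by
    have e : g 0 * W.eq y = g 0 * (W * F ^ T₂).eq y * (F.eq y ^ T₂)⁻¹ := by
      rw [mul_eq, zpow_eq]
      have h3 : F.eq y ^ T₂ ≠ 0 := zpow_ne_zero _ (F.ne y)
      field_simp
    rw [e]
    exact un_mul hg0 (un_inv (un_zpow hFu _))
  have hg00 : g 0 ≠ 0 := left_ne_zero_of_mul hg0'.1
  refine jsp hJ hd (g := fun j => g j * W.eq y) (N := q * n) hgO hg0' ?_ hi ?_ ?_
  · rw [mul_div_mul_right _ _ he0, mul_div_mul_right _ _ he0]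
    exact hgJ
  · rintro _ ⟨s, hs, rfl⟩
    exact sec_loc hFu hs
  · intro a b hab
    obtain ⟨γ, hγ⟩ : ∃ γ, γ = g 0 ^ (q * n - a - b) * g 1 ^ a * g 2 ^ b := ⟨_, rfl⟩
    have e : (g 0 * W.eq y) ^ (q * n - a - b) * (g 1 * W.eq y) ^ a * (g 2 * W.eq y) ^ b = γ * W.eq y ^ (q * n) := by
      have e1 : W.eq y ^ (q * n) = W.eq y ^ (q * n - a - b) * W.eq y ^ a * W.eq y ^ b := by
        rw [← pow_add, ← pow_add]
        congr 1
        omega
      rw [e1, hγ, mul_pow, mul_pow, mul_pow]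
      ring
    rw [e]
    have h1 : Sec ((W ^ q) ^ n * F ^ ((n : ℤ) * (q * T₂))) 1 γ := by
      intro x
      have e2 : ((W ^ q) ^ n * F ^ ((n : ℤ) * (q * T₂))).eq x = (W.eq x * F.eq x ^ T₂) ^ (q * n) := by
        rw [mul_eq, pow_eq, pow_eq, zpow_eq, mul_pow, ← pow_mul, ← zpow_natCast (F.eq x ^ T₂), ← zpow_mul]
        congr 2
        push_cast
        ring
      have e3 : (W.eq x * F.eq x ^ T₂) ^ (q * n) = (W.eq x * F.eq x ^ T₂) ^ (q * n - a - b) *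
          (W.eq x * F.eq x ^ T₂) ^ a * (W.eq x * F.eq x ^ T₂) ^ b := by
        rw [← pow_add, ← pow_add]
        congr 1
        omega
      have h2 : ∀ j, g j * (W.eq x * F.eq x ^ T₂) ∈ X.O x := by
        intro j
        have h3 := hg j x
        rwa [pow_one, mul_eq, zpow_eq] at h3
      have e4 : γ * ((W ^ q) ^ n * F ^ ((n : ℤ) * (q * T₂))).eq x ^ 1 =
          (g 0 * (W.eq x * F.eq x ^ T₂)) ^ (q * n - a - b) * (g 1 * (W.eq x * F.eq x ^ T₂)) ^ a *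
            (g 2 * (W.eq x * F.eq x ^ T₂)) ^ b := by
        rw [pow_one, e2, e3, hγ, mul_pow (g 0), mul_pow (g 1), mul_pow (g 2)]
        ring
      rw [e4]
      exact mul_mem (mul_mem (pow_mem (h2 0) _) (pow_mem (h2 1) _)) (pow_mem (h2 2) _)
    have h2 := hn₀ n hn γ h1
    -- multiply by the power of the local equation
    have h3 : ∀ x ∈ Submodule.span k {x : K | ∃ (j : ℕ) (f : K), Sec ((W ^ q) ^ n * F ^ (n * p₁)) 1 f ∧ x = u ^ j * f},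
        x * W.eq y ^ (q * n) ∈ Submodule.span k {x : K | ∃ (j : ℕ) (f : K),
          f ∈ {f | ∃ s, Sec (W ^ (q * n) * F ^ ((n : ℤ) * p₁)) 1 s ∧ f = s * W.eq y ^ (q * n)} ∧ x = u ^ j * f} := by
      intro x hx
      induction hx using Submodule.span_induction with
      | mem x hx =>
        obtain ⟨j, f, hf, rfl⟩ := hx
        refine Submodule.subset_span ⟨j, f * W.eq y ^ (q * n), ⟨f, ?_, rfl⟩, by ring⟩
        rwa [← pow_mul] at hf
      | zero => rw [zero_mul]; exact zero_mem _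
      | add x y _ _ hx hy => rw [add_mul]; exact add_mem hx hy
      | smul r x _ hx => rw [smul_mul_assoc]; exact Submodule.smul_mem _ r hx
    exact h3 γ h2

theorem wr_main [CharZero k] [IsAlgClosed k] (h : Hyp X) (hr : RR T l c) (hJ : Jac X J κ) (hκ : NumZ κ) (hP : Pu X F u)
    (hFF : ∀ D, T F F D = 0) {W : Cart X} {q : ℕ} (hq : 1 ≤ q) {p₀ p₁ T₂ : ℤ} (h01 : p₀ < p₁) (h12 : p₁ < q * T₂)
    (hA0 : Ample (W ^ q * F ^ p₀)) (hA1 : Ample (W ^ q * F ^ p₁)) (hA2 : Ample (W * F ^ T₂))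
    (hy : Algebra.trdeg k (X.kap y) = 1) (hf : 0 < dz h.var y F)
    (hdB : q * dz h.var y W + p₁ * dz h.var y F < 2 * q * dz h.var y F) (hd : JetU X y J κ u d t)
    {g : Fin 3 → K} (hg : ∀ i, Sec (W * F ^ T₂) 1 (g i)) (hg0 : Un (X.O y) (g 0 * (W * F ^ T₂).eq y))
    (hgJ : Un (X.O y) (J u (g 1 / g 0) (g 2 / g 0) / κ.eq y)) {v : ℤ} {r : K} (hrs : Sec (W * F ^ v) 1 r)
    {μ : ℕ} (hμ : (tay X y d (r * (W * F ^ v).eq y)).order = μ) :
    (p₁ : ℝ) / q - v ≤ 64 * μ / 3 + 8 := by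
  have hA : ∃ A : Cart X, Ample A := ⟨_, hA2⟩
  obtain ⟨-, hFu, -⟩ := u_tr h hP hy hf
  obtain ⟨f, hf'⟩ : ∃ f : ℤ, f = dz h.var y F := ⟨_, rfl⟩
  obtain ⟨w, hw'⟩ : ∃ w : ℤ, w = dz h.var y W := ⟨_, rfl⟩
  rw [← hf'] at hf
  rw [← hf', ← hw'] at hdB
  have hqR : (0 : ℝ) < q := by exact_mod_cast hq
  have hfR : (0 : ℝ) < f := by exact_mod_cast hf
  -- the order of `r`, with the local equation of `W`
  have hre : r * W.eq y ∈ X.O y := by
    have h1 := hrs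
    rw [← pow_one W] at h1
    have h2 := sec_loc hFu h1
    rwa [pow_one] at h2
  have hord : (tay X y d (r * W.eq y)).order = μ := by
    rw [← hμ, mul_eq, zpow_eq, ← mul_assoc]
    exact (ord_un_mul hd.jet (un_zpow hFu v) hre).symm
  rcases Nat.eq_zero_or_pos μ with hμ0 | hμ0
  · -- the case of order `0`
    rw [hμ0, Nat.cast_zero] at hμ
    have h1 := hrs y
    rw [pow_one] at h1
    have h2 := sec_dz h.var hA hy hrs (un_of_ord h1 hμ)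
    rw [dz_mul h.var hA hy, dz_zpow h.var hA hy, ← hf', ← hw'] at h2
    rw [hμ0, Nat.cast_zero]
    have h3 : (p₁ - q * v) * f < 2 * q * f := by nlinarith
    have h4 : p₁ - q * v < 2 * q := lt_of_mul_lt_mul_right h3 hf.le
    have h5 : (p₁ : ℝ) - q * v < 2 * q := by exact_mod_cast h4
    have h6 : (p₁ : ℝ) / q - v = (p₁ - q * v) / q := by field_simp
    rw [h6, div_le_iff₀ hqR]
    linarith
  -- the case of positive order
  obtain ⟨n₀, hn₀⟩ := spn h hr hJ hP hFF h01 h12 hq hA0 hA1 hA2 hd hFu hg hg0 hgJ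
  obtain ⟨a, ha⟩ : ∃ a, a = q * (n₀ + 1) := ⟨_, rfl⟩
  obtain ⟨n₁, hn₁⟩ : ∃ n₁, n₁ = 2 * ((n₀ + 1) * μ) := ⟨_, rfl⟩
  obtain ⟨n₂, hn₂⟩ : ∃ n₂, n₂ = n₁ + (n₀ + 1) := ⟨_, rfl⟩
  have ha1 : 1 ≤ a := by
    rw [ha]
    exact Nat.mul_pos hq (Nat.succ_pos _)
  have e1 : q * n₁ = 2 * (a * μ) := by rw [hn₁, ha]; ring
  have e2 : q * n₂ = 2 * (a * μ) + a := by rw [hn₂, mul_add, e1, ha]
  have hn₁' : n₀ ≤ n₁ := by
    rw [hn₁]
    have h1 : (n₀ + 1) * 1 ≤ (n₀ + 1) * μ := Nat.mul_le_mul_left _ hμ0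
    omega
  have hn₂' : n₀ ≤ n₂ := by rw [hn₂]; omega
  obtain ⟨G₁, hG₁⟩ : ∃ G : Set K, G = {f | ∃ s, Sec (W ^ (q * n₁) * F ^ ((n₁ : ℤ) * p₁)) 1 s ∧
    f = s * W.eq y ^ (q * n₁)} := ⟨_, rfl⟩
  obtain ⟨G₂, hG₂⟩ : ∃ G : Set K, G = {f | ∃ s, Sec (W ^ (q * n₂) * F ^ ((n₂ : ℤ) * p₁)) 1 s ∧
    f = s * W.eq y ^ (q * n₂)} := ⟨_, rfl⟩
  have hs₁ := hn₀ n₁ hn₁' (a * μ) (by rw [e1]; omega)
  have hs₂ := hn₀ n₂ hn₂' (2 * (a * μ)) (by rw [e2]; omega)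
  rw [← hG₁] at hs₁
  rw [← hG₂] at hs₂
  have ho : (tay X y d ((r * W.eq y) ^ a)).order = ((a * μ : ℕ) : ℕ∞) := by
    rw [ord_pow hd.jet hre, hord]
    push_cast
    rfl
  obtain ⟨S, φ, hS, hφ1, hφ2, hdet⟩ := col hd.jet (pow_mem hre a) ho
    (fun g hg => by
      rw [hG₁] at hg
      obtain ⟨s, hs, rfl⟩ := hg
      exact sec_loc hFu hs) hs₁ hs₂
  obtain ⟨i, hi⟩ : ∃ i, i = 2 * (a * μ) := ⟨_, rfl⟩
  obtain ⟨N, hN⟩ : ∃ N, N = q * n₂ := ⟨_, rfl⟩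
  have he0 : W.eq y ≠ 0 := W.ne y
  have heN : W.eq y ^ N ≠ 0 := pow_ne_zero _ he0
  obtain ⟨ψ, hψ⟩ : ∃ ψ : Ix (2 * (a * μ)) → K, ψ = fun l => φ l / W.eq y ^ N := ⟨_, rfl⟩
  have hφψ : φ = fun l => W.eq y ^ N * ψ l := by
    funext l
    rw [hψ]
    field_simp
  classical
  obtain ⟨m, hm⟩ : ∃ m : Ix (2 * (a * μ)) → ℤ, m = fun l => if l ∈ S then a * v + n₁ * p₁ else n₂ * p₁ := ⟨_, rfl⟩
  -- the columns are in the local rings
  have hφO : ∀ l, φ l ∈ X.O y := by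
    intro l
    by_cases hl : l ∈ S
    · obtain ⟨g, hg, hφ⟩ := hφ1 l hl
      rw [hG₁] at hg
      obtain ⟨s, hs, rfl⟩ := hg
      rw [hφ]
      exact mul_mem (pow_mem hre a) (sec_loc hFu hs)
    · have hg := hφ2 l hl
      rw [hG₂] at hg
      obtain ⟨s, hs, hφ⟩ := hg
      rw [hφ]
      exact sec_loc hFu hs
  have hψs : ∀ l, ∀ x, ψ l * ((W ^ N).eq x * F.eq x ^ m l) ∈ X.O x := by
    intro l x
    by_cases hl : l ∈ S
    · obtain ⟨g, hg, hφ⟩ := hφ1 l hl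
      rw [hG₁] at hg
      obtain ⟨s, hs, rfl⟩ := hg
      have h1 : ψ l = r ^ a * s := by
        rw [hψ]
        show φ l / W.eq y ^ N = _
        rw [hφ, hN, e2, ← e1, pow_add, div_eq_iff (mul_ne_zero (pow_ne_zero _ he0) (pow_ne_zero _ he0))]
        ring
      have h2 := hrs x
      rw [pow_one, mul_eq, zpow_eq] at h2
      have h3 := hs x
      rw [pow_one, pz_eq] at h3
      have h4 : ψ l * ((W ^ N).eq x * F.eq x ^ m l) = (r * (W.eq x * F.eq x ^ v)) ^ a *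
          (s * (W.eq x ^ (q * n₁) * F.eq x ^ ((n₁ : ℤ) * p₁))) := by
        rw [h1, hm, pow_eq, hN]
        simp only [if_pos hl]
        have e5 : W.eq x ^ (q * n₂) = W.eq x ^ (q * n₁) * W.eq x ^ a := by rw [← pow_add, e1, e2]
        rw [e5, zpow_add₀ (F.ne x), mul_pow, mul_pow, ← zpow_natCast (F.eq x ^ v) a, ← zpow_mul, mul_comm v]
        ring
      rw [h4]
      exact mul_mem (pow_mem h2 a) h3
    · have hg := hφ2 l hl
      rw [hG₂] at hg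
      obtain ⟨s, hs, hφ⟩ := hg
      have h1 : ψ l = s := by
        rw [hψ]
        show φ l / W.eq y ^ N = _
        rw [hφ, hN]
        exact mul_div_cancel_right₀ _ (pow_ne_zero _ he0)
      have h3 := hs x
      rw [pow_one, pz_eq] at h3
      rw [h1, hm, pow_eq, hN]
      simp only [if_neg hl]
      exact h3
  -- the determinant
  obtain ⟨M, hM⟩ : ∃ M, M = Fintype.card (Ix (2 * (a * μ))) := ⟨_, rfl⟩
  obtain ⟨ω, hω⟩ : ∃ ω, ω = wi (2 * (a * μ)) := ⟨_, rfl⟩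
  obtain ⟨E, hE⟩ : ∃ E : Cart X, E = (W ^ N) ^ M * F ^ (∑ l, m l) * F ^ (2 * ω) * (κ ^ ω)⁻¹ := ⟨_, rfl⟩
  have hEeq : ∀ x, E.eq x = (W ^ N).eq x ^ M * F.eq x ^ (∑ l, m l) * F.eq x ^ (2 * ω) / κ.eq x ^ ω := by
    intro x
    rw [hE, mul_eq, mul_eq, mul_eq, inv_eq, pow_eq κ, pow_eq, pow_eq, pow_eq, zpow_eq, div_eq_mul_inv]
  have hsec : Sec E 1 (Wn d (2 * (a * μ)) ψ * J u (t 0) (t 1) ^ ω) := by
    intro x
    rw [pow_one, hEeq, hM, hω]
    exact glo h hJ hP hd hψs x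
  have hWu : Un (X.O y) (Wn d (2 * (a * μ)) φ) := wn_un hd.jet.st hφO hdet
  have hEu : Un (X.O y) (Wn d (2 * (a * μ)) ψ * J u (t 0) (t 1) ^ ω * E.eq y) := by
    have h1 : Wn d (2 * (a * μ)) φ = (W.eq y ^ N) ^ M * Wn d (2 * (a * μ)) ψ := by
      rw [hφψ, hM]
      exact wn_mul (brk_cm hd.jet.cm) _ _
    have h2 : Wn d (2 * (a * μ)) ψ * J u (t 0) (t 1) ^ ω * E.eq y = Wn d (2 * (a * μ)) φ *
        (J u (t 0) (t 1) / κ.eq y) ^ ω * (F.eq y ^ (∑ l, m l) * F.eq y ^ (2 * ω)) := by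
      rw [h1, hEeq, pow_eq, div_pow]
      ring
    rw [h2]
    exact un_mul (un_mul hWu (un_pow hd.un _)) (un_mul (un_zpow hFu _) (un_pow hFu _))
  have hdE := sec_dz h.var hA hy hsec hEu
  have hdeg : dz h.var y E = M * (N * w) + (∑ l, m l) * f + 2 * ω * f := by
    rw [hE, dz_mul h.var hA hy, dz_mul h.var hA hy, dz_mul h.var hA hy, dz_inv h.var hA hy, dz_pow h.var hA hy,
      dz_pow h.var hA hy, dz_zpow h.var hA hy, dz_pow h.var hA hy, dz_pow h.var hA hy, dz_numz h.var hA hy hκ, ← hf', ← hw']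
    push_cast
    ring
  have hsum : ∑ l, m l = M * (n₂ * p₁) - S.card * (n₂ * p₁ - (a * v + n₁ * p₁)) := by
    have h1 : ∀ l, m l = n₂ * p₁ - (if l ∈ S then (n₂ * p₁ - (a * v + n₁ * p₁)) else 0) := by
      intro l
      rw [hm]
      by_cases hl : l ∈ S
      · simp only [if_pos hl]
        ring
      · simp only [if_neg hl]
        ring
    rw [Finset.sum_congr rfl fun l _ => h1 l, Finset.sum_sub_distrib, Finset.sum_const, Finset.card_univ,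
      ← Finset.sum_filter, Finset.filter_mem_eq_inter, Finset.univ_inter, Finset.sum_const, ← hM]
    simp only [nsmul_eq_mul]
  rw [hdeg, hsum, hS] at hdE
  -- the numbers
  have h1 := card_ix (2 * (a * μ))
  have h2 := card_ix (a * μ)
  have h3 := wi_eq (2 * (a * μ))
  rw [← hM] at h1
  rw [← hω] at h3
  obtain ⟨Mb, hMb⟩ : ∃ Mb, Mb = Fintype.card (Ix (a * μ)) := ⟨_, rfl⟩
  rw [← hMb] at h2 hdE
  have haR : (a : ℝ) = q * (n₀ + 1) := by rw [ha]; push_cast; ring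
  refine wr_num (a := a) (μ := μ) ha1 (T₁ := (p₁ : ℝ) / q) (u := v) (f := f) (dB := w + (p₁ : ℝ) / q * f) (M := M) (Mb := Mb)
    (w := ω) hfR ?_ ?_ ?_ ?_ ?_
  · have h4 : (q : ℝ) * w + p₁ * f < 2 * q * f := by exact_mod_cast hdB
    have h5 : (w : ℝ) + (p₁ : ℝ) / q * f = (q * w + p₁ * f) / q := by field_simp
    rw [h5, div_lt_iff₀ hqR]
    linarith
  · exact_mod_cast h1
  · exact_mod_cast h2
  · exact_mod_cast h3
  · have h4 : (0 : ℝ) ≤ M * (N * w) + (M * (n₂ * p₁) - Mb * (n₂ * p₁ - (a * v + n₁ * p₁))) * f + 2 * ω * f := by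
      exact_mod_cast hdE
    have h5 : (N : ℝ) = q * n₂ := by rw [hN]; push_cast; ring
    have h6 : ((2 * (a * μ) + a : ℕ) : ℝ) = q * n₂ := by rw [← e2]; push_cast; ring
    have h7 : (n₂ : ℝ) = n₁ + (n₀ + 1) := by rw [hn₂]; push_cast; ring
    have h8 : (M : ℝ) * ((2 * (a * μ) + a : ℕ) * (w + (p₁ : ℝ) / q * f)) - Mb * (a * ((p₁ : ℝ) / q - v) * f) + 2 * ω * f =
        M * (N * w) + (M * (n₂ * p₁) - Mb * (n₂ * p₁ - (a * v + n₁ * p₁))) * f + 2 * ω * f := by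
      rw [h6, h5, haR, h7]
      field_simp
      ring
    rw [h8]
    exact h4

end Pool.Agent.H43.WR
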