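import Pool.Agent.H43.WR.Nd
import Pool.Agent.H43.WR.Va
import Pool.Agent.H43.WR.Wr
import Pool.Agent.H89.RS.Klm

/-!
# [H43 WR Mi] THEOREM WR (MP_e49dc9_ag): the consequence for the classes with a section

`mi_of`: `U + t₀ F` nef, `ρ` a section of `U + s F` whose order at the curves `y`, `F . y > 0`, `(U + (s + 22 N) F) . y < 0`, is at most `N`.  Then
`U + (s + 22 N) F` is nef.

PROOF.  `C := closure (CC ν)`, a closed convex cone, `cR ν F ∈ C` (`hF`).  Suppose `cR ν U + (s + 22 N) • cR ν F ∉ C`.  Let `A` be ample without base points (`exists_bpf`: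
for every point `x` there is a section `α` of `A` with `α * A.eq x` a unit at `x`).  `C` is closed: there are `ε > 0` and `m₀` such that
`cR ν U + (1 / m) • cR ν A + (s + 22 N + ε) • cR ν F ∉ C` for `m ≥ m₀`.  Choose `m ≥ m₀`, `1 ≤ m`, `8 < m ε`.  `T' := ⌈m t₀⌉ + 2`, `B := U ^ m * A * F ^ T'` is ample (`cc_ample`: the sum of
an element of `C` and of one of `CC ν` is in `CC ν`).  `va`: `n₁ ≥ 1`.  `W := (U ^ m * A) ^ n₁`, `T₂ := n₁ T'`: `W * F ^ T₂ = B ^ n₁`.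
`x₀ := n₁ m (s + 22 N + ε)`: `cR ν W + x₀ • cR ν F ∉ C`.  `τ := sInf {x | x₀ ≤ x, cR ν W + x • cR ν F ∈ C}`: the set is closed, not empty (`n₁ m t₀` or `x₀` bigger), so
`cR ν W + τ • cR ν F ∈ C`, `x₀ ≤ τ ≤ n₁ m t₀` (`x₀ < n₁ m t₀` because `C` is a cone which contains `cR ν F`), and `cR ν W + (τ - 1) • cR ν F ∉ C` (if `τ - 1 < x₀` because then
`cR ν W + x₀ • cR ν F` would be in `C`).  `klm`: a curve `y` with `dR y (cR ν W + (τ - 1) • cR ν F) < 0`; `0 ≤ dR y (cR ν W + τ • cR ν F)` (`dR_nef`), so `0 < dR y (cR ν F) = dz y F`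
(`dR_ci`).  `ex_jetU`: `d`, `t`.  `va`: `g`.  `α` a section of `A`, a unit at `y`.  `r := (ρ ^ m * α) ^ n₁`, a section of `W + v F`, `v := n₁ m s`.  Its order at `y` is `μ := n₁ m μ₀`,
`μ₀` = the order of `ρ * (U * F ^ s).eq y`, `μ₀ ≤ N` (`hN` and `vn_iff`, H16/WR/Tay: `(tay ..).order` is finite, otherwise `Vn X y d n` for all `n`; `tay_mul`,
`MvPowerSeries.order_mul`, `ord_pow`; the order of a unit is `0`).  Choose integers `q ≥ 1`, `p₀ < p₁` with `τ < p₀ / q < p₁ / q ≤ τ + 1` (for instance `q = 3`, `p₀ = ⌊3 τ⌋ + 1`,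
`p₁ = p₀ + 1`).  `q W + p F` is ample for `τ < p / q ≤ T₂` (`cR ν W + (p / q) • cR ν F` is a convex combination of `cR ν W + τ • cR ν F ∈ C` and of `cR ν (B ^ n₁) ∈ CC ν`, with a positive
coefficient of the second), `p₁ < q T₂` (`τ + 1 < T₂`).  `wr_main`: `p₁ / q - v ≤ 64 μ / 3 + 8`; so `n₁ m (s + 22 N + ε) = x₀ ≤ τ < p₁ / q ≤ n₁ m s + 64 n₁ m N / 3 + 8`, that is
`n₁ m ε < 8` (`0 ≤ μ₀ ≤ N`): a contradiction.
-/

set_option autoImplicit false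

namespace Pool.Agent.H43.WR

open Pool.Agent.H16.WR (Ix cv tay ord_pow vn_iff)
open Pool.Agent.H54.RV Pool.Agent.H83.TU Pool.Agent.H83.TK Pool.Agent.H20.TD Pool.Agent.H20.TP Pool.Agent.H89.RS Pool.Agent.H20.RT
open Pool.Agent.H24.VP (RR)

variable {k K : Type} [Field k] [Field K] [Algebra k K] {X : Mod k K} {r : ℕ}
  {ν : Cart X →* Multiplicative (Fin r → ℤ)} {T : Cart X → Cart X → Cart X → ℝ} {l₀ : Cart X → ℝ} {c : ℝ} {TR : Tri3 r}
  {J : K → K → K → K} {κ F : Cart X} {u : K}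

private theorem mi_add (hX : IsVar X) (hν : NumR ν) {x z : Fin r → ℝ} (hx : x ∈ closure (CC ν))
    (hz : z ∈ closure (CC ν)) : x + z ∈ closure (CC ν) :=
  map_mem_closure₂ continuous_add hx hz fun _ ha _ hb => cc_add hX hν ha hb

private theorem mi_mul (U V : Cart X) : cR ν (U * V) = cR ν U + cR ν V := by
  change rv (ci ν (U * V)) = _
  rw [ci_mul, rv_add]

private theorem mi_pow (U : Cart X) (n : ℕ) : cR ν (U ^ n) = (n : ℝ) • cR ν U := by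
  change rv (ci ν (U ^ n)) = _
  rw [ci_pow, rv_smul, Int.cast_natCast]

private theorem mi_zpow (U : Cart X) (n : ℤ) : cR ν (U ^ n) = (n : ℝ) • cR ν U := by
  change rv (ci ν (U ^ n)) = _
  rw [ci_zpow, rv_smul]

/-- the order at the curve of the section `(ρ ^ m * α) ^ n` -/
private theorem mi_ord [CharZero k] {y : X.P} {d : Fin 2 → Derivation k K K} {t : Fin 2 → K} (hd : Jet X y d t)
    {U A : Cart X} {s : ℤ} {ρ α : K} (hρ : Sec (U * F ^ s) 1 ρ) (hα : Un (X.O y) (α * A.eq y)) (m n μ₀ : ℕ)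
    (hμ : (tay X y d (ρ * (U * F ^ s).eq y)).order = μ₀) :
    (tay X y d ((ρ ^ m * α) ^ n * ((U ^ m * A) ^ n * F ^ ((n : ℤ) * (m * s))).eq y)).order = (n * (m * μ₀) : ℕ) := by
  have h1 := hρ y
  rw [pow_one] at h1
  have e : (ρ ^ m * α) ^ n * ((U ^ m * A) ^ n * F ^ ((n : ℤ) * (m * s))).eq y =
      ((ρ * (U * F ^ s).eq y) ^ m * (α * A.eq y)) ^ n := by
    have e1 : F.eq y ^ ((n : ℤ) * (m * s)) = ((F.eq y ^ s) ^ m) ^ n := by
      rw [← zpow_natCast ((F.eq y ^ s) ^ m), ← zpow_natCast (F.eq y ^ s), ← zpow_mul, ← zpow_mul]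
      congr 1
      ring
    rw [mul_eq, pow_eq, mul_eq, pow_eq, zpow_eq, mul_eq, zpow_eq, e1]
    ring
  rw [e, ord_pow hd (mul_mem (pow_mem h1 m) hα.2.1), ord_un_mul hd hα (pow_mem h1 m), ord_pow hd h1, hμ]
  push_cast
  rfl

theorem mi_of [CharZero k] [IsAlgClosed k] [T0Space X.P] (hSm : Pool.Agent.H20.TU.SmP X) (h : Hyp X) (hr : RR T l₀ c)
    (hν : NumR ν) (hT : ∀ U V W, TR (cR ν U) (cR ν V) (cR ν W) = T U V W) (hJ : Jac X J κ) (hκ : NumZ κ) (hP : Pu X F u)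
    (hFF : ∀ D, T F F D = 0) (hF : cR ν F ∈ closure (CC ν)) {U : Cart X} {t₀ : ℝ}
    (hU : cR ν U + t₀ • cR ν F ∈ closure (CC ν)) {s : ℤ} {ρ : K} (hρ : Sec (U * F ^ s) 1 ρ) {N : ℝ}
    (hN : ∀ y : X.P, Algebra.trdeg k (X.kap y) = 1 → 0 < dz h.var y F →
      dR hν h.var y (cR ν U + (s + 22 * N) • cR ν F) < 0 → ∀ (d : Fin 2 → Derivation k K K) (t : Fin 2 → K),
        JetU X y J κ u d t → ∀ n : ℕ, Vn X y d n (ρ * (U * F ^ s).eq y) → (n : ℝ) ≤ N) :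
    cR ν U + (s + 22 * N) • cR ν F ∈ closure (CC ν) := by
  obtain ⟨A₀, hA₀⟩ := h.amp
  obtain ⟨m₁, -, hA, hb⟩ := exists_bpf h.var hA₀
  obtain ⟨A, hAd⟩ : ∃ A, A = A₀ ^ m₁ := ⟨_, rfl⟩
  rw [← hAd] at hA hb
  clear hAd hA₀
  have hAc : cR ν A ∈ CC ν := cc_amp h.var hν hA
  by_contra hcon
  -- a small perturbation
  have h1 : IsOpen {z : ℝ × ℝ | cR ν U + z.1 • cR ν A + (s + 22 * N + z.2) • cR ν F ∉ closure (CC ν)} :=
    (isClosed_closure.preimage (f := fun z : ℝ × ℝ => cR ν U + z.1 • cR ν A + (s + 22 * N + z.2) • cR ν F)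
      (by fun_prop)).isOpen_compl
  obtain ⟨δ, hδ, hball⟩ := Metric.isOpen_iff.1 h1 (0, 0) (by
    show cR ν U + (0 : ℝ) • cR ν A + (s + 22 * N + (0 : ℝ)) • cR ν F ∉ closure (CC ν)
    rwa [zero_smul, add_zero, add_zero])
  obtain ⟨m, hm⟩ := exists_nat_gt (max 1 (16 / δ))
  have hm1 : (1 : ℝ) < m := (le_max_left _ _).trans_lt hm
  have hm2 : 16 / δ < m := (le_max_right _ _).trans_lt hm
  have hm0 : (0 : ℝ) < m := by linarith
  have hm3 : 16 < m * δ := by rwa [div_lt_iff₀ hδ] at hm2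
  obtain ⟨ε, hε⟩ : ∃ ε, ε = δ / 2 := ⟨_, rfl⟩
  have hx1 : cR ν U + (1 / (m : ℝ)) • cR ν A + (s + 22 * N + ε) • cR ν F ∉ closure (CC ν) := by
    have h2 : ((1 / (m : ℝ), ε) : ℝ × ℝ) ∈ Metric.ball (0, 0) δ := by
      rw [Metric.mem_ball, Prod.dist_eq, max_lt_iff, Real.dist_eq, Real.dist_eq, sub_zero, sub_zero,
        abs_of_pos (by positivity), abs_of_pos (by rw [hε]; positivity), hε]
      refine ⟨?_, by linarith⟩
      rw [div_lt_iff₀ hm0]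
      linarith
    exact hball h2
  -- the ample class and the number `n₁`
  obtain ⟨T', hT'⟩ : ∃ T' : ℤ, T' = ⌈(m : ℝ) * t₀⌉ + 2 := ⟨_, rfl⟩
  have hT1 : (m : ℝ) * t₀ ≤ T' - 2 := by
    rw [hT']
    push_cast
    have := Int.le_ceil ((m : ℝ) * t₀)
    linarith
  have hB : Ample (U ^ m * A * F ^ T') := by
    refine cc_ample (ν := ν) ?_
    have e : rv (ci ν (U ^ m * A * F ^ T')) =
        cR ν A + ((m : ℝ) • (cR ν U + t₀ • cR ν F) + ((T' : ℝ) - m * t₀) • cR ν F) := by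
      change cR ν (U ^ m * A * F ^ T') = _
      rw [mi_mul, mi_mul, mi_pow, mi_zpow]
      module
    rw [e]
    exact (oc_cc h.var hν).add_cl hAc (mi_add h.var hν (cl_smul hm0.le hU) (cl_smul (by linarith) hF))
  obtain ⟨n₁, hn₁, hva⟩ := va h hJ hB
  have hn₁R : (1 : ℝ) ≤ n₁ := by exact_mod_cast hn₁
  have hnm : (0 : ℝ) < n₁ * m := by positivity
  obtain ⟨W, hW⟩ : ∃ W, W = (U ^ m * A) ^ n₁ := ⟨_, rfl⟩
  obtain ⟨T₂, hT₂⟩ : ∃ T₂ : ℤ, T₂ = n₁ * T' := ⟨_, rfl⟩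
  have hWB : W * F ^ T₂ = (U ^ m * A * F ^ T') ^ n₁ := by
    rw [hW, hT₂, mul_pow (U ^ m * A), ← zpow_natCast (F ^ T') n₁, ← zpow_mul, mul_comm (T' : ℤ)]
  have hWc : cR ν W = (n₁ : ℝ) • ((m : ℝ) • cR ν U + cR ν A) := by
    rw [hW, mi_pow, mi_mul, mi_pow]
  have hA2 : Ample (W * F ^ T₂) := by
    rw [hWB]
    exact ample_pow _ n₁ hn₁ hB
  -- the threshold
  obtain ⟨x₀, hx₀⟩ : ∃ x₀ : ℝ, x₀ = n₁ * m * (s + 22 * N + ε) := ⟨_, rfl⟩
  have hx₀c : cR ν W + x₀ • cR ν F ∉ closure (CC ν) := by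
    intro h2
    have h3 := cl_smul (ν := ν) (t := 1 / (n₁ * m : ℝ)) (by positivity) h2
    refine hx1 ?_
    have e : cR ν U + (1 / (m : ℝ)) • cR ν A + (s + 22 * N + ε) • cR ν F =
        (1 / (n₁ * m : ℝ)) • (cR ν W + x₀ • cR ν F) := by
      have hn0 : (n₁ : ℝ) ≠ 0 := by positivity
      rw [hWc, hx₀]
      match_scalars <;> field_simp
    rw [e]
    exact h3
  have hx₁c : cR ν W + ((n₁ : ℝ) * m * t₀) • cR ν F ∈ closure (CC ν) := by
    have e : cR ν W + ((n₁ : ℝ) * m * t₀) • cR ν F = (n₁ : ℝ) • ((m : ℝ) • (cR ν U + t₀ • cR ν F) + cR ν A) := by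
      rw [hWc]
      module
    rw [e]
    exact cl_smul (by positivity) (mi_add h.var hν (cl_smul hm0.le hU) (subset_closure hAc))
  have hup : ∀ x x' : ℝ, x ≤ x' → cR ν W + x • cR ν F ∈ closure (CC ν) → cR ν W + x' • cR ν F ∈ closure (CC ν) := by
    intro x x' hxx' h2
    have e : cR ν W + x' • cR ν F = (cR ν W + x • cR ν F) + (x' - x) • cR ν F := by module
    rw [e]
    exact mi_add h.var hν h2 (cl_smul (by linarith) hF)
  have hx01 : x₀ < n₁ * m * t₀ := by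
    by_contra h2
    push Not at h2
    exact hx₀c (hup _ _ h2 hx₁c)
  obtain ⟨Sx, hSx⟩ : ∃ Sx : Set ℝ, Sx = {x | x₀ ≤ x ∧ cR ν W + x • cR ν F ∈ closure (CC ν)} := ⟨_, rfl⟩
  have hScl : IsClosed Sx := by
    rw [hSx]
    exact isClosed_Ici.inter (isClosed_closure.preimage (f := fun x : ℝ => cR ν W + x • cR ν F) (by fun_prop))
  have hSne : ((n₁ : ℝ) * m * t₀) ∈ Sx := by
    rw [hSx]
    exact ⟨hx01.le, hx₁c⟩
  have hSbd : BddBelow Sx := ⟨x₀, fun x hx => by rw [hSx] at hx; exact hx.1⟩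
  obtain ⟨τ, hτ⟩ : ∃ τ, τ = sInf Sx := ⟨_, rfl⟩
  have hτS : τ ∈ Sx := by
    rw [hτ]
    exact hScl.csInf_mem ⟨_, hSne⟩ hSbd
  have hτle : τ ≤ n₁ * m * t₀ := by
    rw [hτ]
    exact csInf_le hSbd hSne
  rw [hSx] at hτS
  obtain ⟨hτ0, hτc⟩ := hτS
  have hτ1 : cR ν W + (τ - 1) • cR ν F ∉ closure (CC ν) := by
    intro h2
    rcases le_total x₀ (τ - 1) with h3 | h3
    · have h4 : sInf Sx ≤ τ - 1 := csInf_le hSbd (by rw [hSx]; exact ⟨h3, h2⟩)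
      rw [← hτ] at h4
      linarith
    · exact hx₀c (hup _ _ h3 h2)
  have hτT : τ ≤ T₂ - 2 := by
    have h2 : (T₂ : ℝ) = n₁ * T' := by rw [hT₂]; push_cast; ring
    rw [h2]
    nlinarith
  -- the curve
  obtain ⟨y, hy, hyn⟩ : ∃ y : X.P, Algebra.trdeg k (X.kap y) = 1 ∧ dR hν h.var y (cR ν W + (τ - 1) • cR ν F) < 0 := by
    by_contra h2
    push Not at h2
    exact hτ1 (klm h hr hν hT h2)
  have hyp := dR_nef hν h.var hA hy hτc
  have hyn' := hyn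
  rw [map_add, map_smul, dR_ci hν h.var ⟨A, hA⟩ hy, dR_ci hν h.var ⟨A, hA⟩ hy, smul_eq_mul] at hyn hyp
  have hfR : (0 : ℝ) < dz h.var y F := by linarith
  have hyU : dR hν h.var y (cR ν U + (s + 22 * N) • cR ν F) < 0 := by
    have hAy := dR_cc hν h.var hA hy hAc
    rw [hWc, map_add, map_smul, map_smul, map_add, map_smul, dR_ci hν h.var ⟨A, hA⟩ hy F] at hyn'
    rw [map_add, map_smul, dR_ci hν h.var ⟨A, hA⟩ hy F]
    simp only [smul_eq_mul] at hyn' ⊢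
    have g1 : 8 < (m : ℝ) * ε := by
      rw [hε]
      linarith
    have g2 : (m : ℝ) * ε ≤ n₁ * (m * ε) := le_mul_of_one_le_left (by linarith) hn₁R
    have g3 : x₀ * (dz h.var y F : ℝ) ≤ τ * dz h.var y F := mul_le_mul_of_nonneg_right hτ0 hfR.le
    rw [hx₀] at g3
    have g4 : 0 < (n₁ : ℝ) * dR hν h.var y (cR ν A) := mul_pos (by linarith) hAy
    have g5 : (1 : ℝ) * dz h.var y F < n₁ * (m * ε) * dz h.var y F := mul_lt_mul_of_pos_right (by linarith) hfR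
    have g6 : (n₁ * m : ℝ) * (dR hν h.var y (cR ν U) + (s + 22 * N) * dz h.var y F) < 0 := by nlinarith
    by_contra g7
    push Not at g7
    exact absurd g6 (not_lt.2 (mul_nonneg hnm.le g7))
  have hf : 0 < dz h.var y F := by exact_mod_cast hfR
  obtain ⟨d, t, hd⟩ := ex_jetU hSm h hJ hP hy hf
  obtain ⟨g, hg, hg0, hgJ⟩ := hva y d t hd
  rw [← hWB] at hg hg0
  obtain ⟨α, hα, hαy⟩ := hb y
  have hαy' : Un (X.O y) (α * A.eq y) := by
    have h2 : Un (X.O y) (α * A.eq y ^ 1) := hαy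
    rwa [pow_one] at h2
  -- the order
  have hρy := hρ y
  rw [pow_one] at hρy
  obtain ⟨μ₀, hμ₀⟩ : ∃ μ₀ : ℕ, (tay X y d (ρ * (U * F ^ s).eq y)).order = μ₀ := by
    have h2 : (tay X y d (ρ * (U * F ^ s).eq y)).order ≠ ⊤ := by
      intro h3
      obtain ⟨n, hn⟩ := exists_nat_gt N
      have h4 := hN y hy hf hyU d t hd n ((vn_iff hρy n).2 (by rw [h3]; exact le_top))
      linarith
    exact ⟨_, (ENat.natCast_toNat h2).symm⟩
  have hμN : (μ₀ : ℝ) ≤ N := hN y hy hf hyU d t hd μ₀ ((vn_iff hρy μ₀).2 (by rw [hμ₀]))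
  have hrs : Sec (W * F ^ ((n₁ : ℤ) * (m * s))) 1 ((ρ ^ m * α) ^ n₁) := by
    intro x
    have h2 := hρ x
    have h3 := hα x
    rw [pow_one, mul_eq, zpow_eq] at h2
    rw [pow_one] at h3
    have e1 : F.eq x ^ ((n₁ : ℤ) * (m * s)) = ((F.eq x ^ s) ^ m) ^ n₁ := by
      rw [← zpow_natCast ((F.eq x ^ s) ^ m), ← zpow_natCast (F.eq x ^ s), ← zpow_mul, ← zpow_mul]
      congr 1
      ring
    have e : (ρ ^ m * α) ^ n₁ * (W * F ^ ((n₁ : ℤ) * (m * s))).eq x ^ 1 =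
        ((ρ * (U.eq x * F.eq x ^ s)) ^ m * (α * A.eq x)) ^ n₁ := by
      rw [pow_one, hW, mul_eq, pow_eq, mul_eq, pow_eq, zpow_eq, e1]
      ring
    rw [e]
    exact pow_mem (mul_mem (pow_mem h2 m) h3) n₁
  have hμ := mi_ord hd.jet hρ hαy' m n₁ μ₀ hμ₀
  rw [← hW] at hμ
  -- the rational numbers
  obtain ⟨p₀, hp₀⟩ : ∃ p₀ : ℤ, p₀ = ⌊3 * τ⌋ + 1 := ⟨_, rfl⟩
  have hp1 : 3 * τ < p₀ := by
    rw [hp₀]
    push_cast
    exact Int.lt_floor_add_one _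
  have hp2 : (p₀ : ℝ) ≤ 3 * τ + 1 := by
    rw [hp₀]
    push_cast
    have := Int.floor_le (3 * τ)
    linarith
  have hamp : ∀ p : ℤ, 3 * τ < p → (p : ℝ) ≤ 3 * τ + 2 → Ample (W ^ 3 * F ^ p) := by
    intro p h2 h3
    refine cc_ample (ν := ν) ?_
    obtain ⟨lam, hlam⟩ : ∃ lam : ℝ, lam = (p - 3 * τ) / (T₂ - τ) := ⟨_, rfl⟩
    have h4 : (0 : ℝ) < T₂ - τ := by linarith
    have h5 : 0 < lam := by
      rw [hlam]
      exact div_pos (by linarith) h4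
    have h6 : lam ≤ 3 := by
      rw [hlam, div_le_iff₀ h4]
      linarith
    have h7 : lam * (T₂ - τ) = p - 3 * τ := by
      rw [hlam]
      field_simp
    have e : rv (ci ν (W ^ 3 * F ^ p)) = lam • cR ν (W * F ^ T₂) + (3 - lam) • (cR ν W + τ • cR ν F) := by
      change cR ν (W ^ 3 * F ^ p) = _
      rw [mi_mul, mi_pow, mi_zpow, mi_mul, mi_zpow]
      have h8 : (p : ℝ) = 3 * τ + lam * (T₂ - τ) := by linarith
      rw [h8]
      push_cast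
      module
    rw [e]
    exact (oc_cc h.var hν).add_cl (cc_smul h5 (cc_amp h.var hν hA2)) (cl_smul (by linarith) hτc)
  have h12 : p₀ + 1 < (3 : ℕ) * T₂ := by
    have h2 : ((p₀ + 1 : ℤ) : ℝ) < ((3 * T₂ : ℤ) : ℝ) := by
      push_cast
      linarith
    exact_mod_cast h2
  have hdB : ((3 : ℕ) : ℤ) * dz h.var y W + (p₀ + 1) * dz h.var y F < 2 * (3 : ℕ) * dz h.var y F := by
    have h2 : (((3 : ℕ) : ℤ) * dz h.var y W + (p₀ + 1) * dz h.var y F : ℝ) < 2 * (3 : ℕ) * dz h.var y F := by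
      push_cast
      nlinarith
    exact_mod_cast h2
  have hfin := wr_main h hr hJ hκ hP hFF (q := 3) (by norm_num) (lt_add_one p₀) h12 (hamp p₀ hp1 (by linarith))
    (hamp (p₀ + 1) (by push_cast; linarith) (by push_cast; linarith)) hA2 hy hf hdB hd hg hg0 hgJ hrs hμ
  push_cast at hfin
  have h2 : 0 ≤ (μ₀ : ℝ) := Nat.cast_nonneg _
  have h3 : (n₁ * m : ℝ) * μ₀ ≤ n₁ * m * N := mul_le_mul_of_nonneg_left hμN hnm.le
  have h4 : (n₁ * m : ℝ) * ε < 8 := by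
    have h5 : (0 : ℝ) ≤ n₁ * m * μ₀ := by positivity
    nlinarith
  have h5 : 8 < (m : ℝ) * ε := by
    rw [hε]
    linarith
  have h6 : (m : ℝ) * ε ≤ n₁ * (m * ε) := le_mul_of_one_le_left (by linarith) hn₁R
  linarith

end Pool.Agent.H43.WR
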