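import Pool.Agent.H43.WR.Def
import Pool.Agent.H89.RS.Der

/-!
# [H43 WR Coo] THEOREM WR (MP_e49dc9_ag): coordinates at a point, and the alternating derivation `J`

`jac_det`: if `D` is a dual basis of the derivations of `K` (`D i (c j) = δ_ij`, every derivation `E` is `∑ E (c i) • D i`), then
`J a b e = J (c 0) (c 1) (c 2) * det (D i a, D i b, D i e)`.
PROOF.  `J a b e` is a derivation in each argument (`Jac.add`, `leib`, `alg` for the first one, `s12`, `s23` for the others; make a
`Derivation k K K` of `fun a => J a b e`).  So `J a b e = ∑_i D i a * J (c i) b e = ∑_(i j l) D i a * D j b * D l e * J (c i) (c j) (c l)`, and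
`J (c i) (c j) (c l)` is zero if two indices are equal (`J a a b = - J a a b`, `CharZero`) and is `± J (c 0) (c 1) (c 2)` otherwise: the
determinant (`Matrix.det_fin_three`).

`ex_coo`: at every point `x` there are `D : Fin 3 → Derivation k K K` and `c : Fin 3 → K`, `c i ∈ X.O x`, dual to each other, such that the
`D i` preserve `X.O x`, all derivations of `K` are combinations of the `D i`, and `J (c 0) (c 1) (c 2) / κ.eq x` is a unit of `X.O x`.
PROOF.  `c` from `SmP`, `D` from `der_dual` of H89/RS/Der (private there: copy it; `hf` there: `K` is the quotient field of `X.O x`, see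
the proof of `ex_jet`).  By `jac_det` `J a b e / κ.eq x = (J (c 0) (c 1) (c 2) / κ.eq x) * det (..)`, the determinant is in `X.O x` for
`a b e ∈ X.O x`; by `Jac.gen` the left side is a unit for suitable `a b e`; both factors are in `X.O x` (`Jac.mem`): so
`J (c 0) (c 1) (c 2) / κ.eq x` is a unit (`un_mul_iff`).
-/

set_option autoImplicit false

namespace Pool.Agent.H43.WR

open Pool.Agent.H54.RV Pool.Agent.H83.TU Pool.Agent.H83.TK Pool.Agent.H20.TD Pool.Agent.H20.TP Pool.Agent.H89.RS

section aux

variable {k K : Type} [Field k] [Field K] [Algebra k K] {O : Subalgebra k K}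

/-- a derivation which is zero at the coordinates is zero on the local ring -/
private theorem der_zeroO {M : Type*} [AddCommGroup M] [Module k M] [Module O M] [IsScalarTower k O M]
    (c : Fin 3 → O) (hc : Submodule.span O (Set.range fun i => KaehlerDifferential.D k O (c i)) = ⊤)
    (δ : Derivation k O M) (h : ∀ i, δ (c i) = 0) : δ = 0 := by
  have hl : δ.liftKaehlerDifferential = 0 := by
    refine LinearMap.ext_on_range (v := fun i => KaehlerDifferential.D k O (c i)) hc ?_
    intro i
    rw [Derivation.liftKaehlerDifferential_comp_D, h, LinearMap.zero_apply]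
  ext a
  rw [← Derivation.liftKaehlerDifferential_comp_D δ a, hl, LinearMap.zero_apply]
  rfl

/-- a derivation of the field which is zero at the coordinates is zero -/
private theorem der_zero {M : Type*} [AddCommGroup M] [Module k M] [Module K M] [IsScalarTower k K M]
    (hf : ∀ z : K, ∃ s ∈ O, s ≠ 0 ∧ z * s ∈ O) (c : Fin 3 → O)
    (hc : Submodule.span O (Set.range fun i => KaehlerDifferential.D k O (c i)) = ⊤)
    (δ : Derivation k K M) (h : ∀ i, δ (c i : K) = 0) : δ = 0 := by
  have : IsScalarTower k O M := ⟨fun r a m => by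
    change ((r • a : O) : K) • m = r • ((a : K) • m)
    rw [← smul_assoc]
    rfl⟩
  have h1 : δ.compAlgebraMap O = 0 := der_zeroO c hc _ h
  have h2 : ∀ a : O, δ (a : K) = 0 := fun a => congrArg (fun d : Derivation k O M => d a) h1
  ext z
  obtain ⟨s, hs, hs0, hzs⟩ := hf z
  have h3 := h2 ⟨_, hzs⟩
  change δ (z * s) = 0 at h3
  have h4 := h2 ⟨s, hs⟩
  change δ s = 0 at h4
  rw [Derivation.leibniz, h4, smul_zero, zero_add] at h3
  exact (smul_eq_zero.1 h3).resolve_left hs0

/-- the dual derivations -/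
private theorem der_dual [CharZero k] (htr : Algebra.trdeg k K = 3) (hf : ∀ z : K, ∃ s ∈ O, s ≠ 0 ∧ z * s ∈ O)
    (c : Fin 3 → O) (hc : Submodule.span O (Set.range fun i => KaehlerDifferential.D k O (c i)) = ⊤) :
    ∃ p : Fin 3 → Derivation k K K, (∀ i j, p i (c j : K) = if i = j then 1 else 0) ∧
      ∀ i, ∀ f ∈ O, p i f ∈ O := by
  classical
  obtain ⟨b, hb⟩ : ∃ b : Fin 3 → K, IsTranscendenceBasis k b := by
    obtain ⟨b, hb⟩ := Pool.Agent.H20.TU.exists_indep 3 (by exact_mod_cast htr.ge)
    refine ⟨b, hb.isTranscendenceBasis_of_trdeg_le_of_finite ?_⟩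
    rw [Cardinal.mk_fin, htr]
    norm_num
  obtain ⟨N, hN⟩ : ∃ N : Submodule K (Ω[K⁄k]),
      N = Submodule.span K (Set.range fun i => KaehlerDifferential.D k K (c i : K)) := ⟨_, rfl⟩
  have h1 : N = ⊤ := by
    let δ : Derivation k K ((Ω[K⁄k]) ⧸ N) := N.mkQ.compDer (KaehlerDifferential.D k K)
    have hδ : δ = 0 := by
      refine der_zero hf c hc δ fun i => ?_
      change N.mkQ (KaehlerDifferential.D k K (c i : K)) = 0
      rw [Submodule.mkQ_apply, Submodule.Quotient.mk_eq_zero, hN]
      exact Submodule.subset_span ⟨i, rfl⟩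
    rw [eq_top_iff, ← KaehlerDifferential.span_range_derivation, Submodule.span_le]
    rintro _ ⟨a, rfl⟩
    have h2 : δ a = 0 := by rw [hδ]; rfl
    change N.mkQ (KaehlerDifferential.D k K a) = 0 at h2
    rwa [Submodule.mkQ_apply, Submodule.Quotient.mk_eq_zero] at h2
  have hfin : Module.Finite K (Ω[K⁄k]) := by
    refine ⟨⟨Finset.univ.image fun i => KaehlerDifferential.D k K (c i : K), ?_⟩⟩
    rw [Finset.coe_image, Finset.coe_univ, Set.image_univ, ← hN, h1]
  have hle := Pool.Agent.H20.TU.finrank_omega htr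
  have hge : 3 ≤ Module.finrank K (Ω[K⁄k]) := by
    have hli : LinearIndependent K fun i => KaehlerDifferential.D k K (b i) := by
      rw [Fintype.linearIndependent_iff]
      intro g hg i
      obtain ⟨D, hD⟩ := Pool.Agent.H24.TU.exists_derivation hb (fun j => if j = i then (1 : K) else 0)
      have h2 := congrArg D.liftKaehlerDifferential hg
      rw [map_sum, map_zero] at h2
      simp only [map_smul, Derivation.liftKaehlerDifferential_comp_D, hD, smul_eq_mul, mul_ite, mul_one, mul_zero,
        Finset.sum_ite_eq', Finset.mem_univ, if_true] at h2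
      exact h2
    have := hli.fintype_card_le_finrank
    simpa using this
  have hli : LinearIndependent K fun i => KaehlerDifferential.D k K (c i : K) := by
    refine linearIndependent_of_top_le_span_of_card_eq_finrank (by rw [← hN, h1]) ?_
    rw [Fintype.card_fin]
    omega
  let B := Module.Basis.mk hli (by rw [← hN, h1])
  have hB : ∀ i, B i = KaehlerDifferential.D k K (c i : K) := fun i => Module.Basis.mk_apply _ _ i
  have hp : ∀ i j, ((B.coord i).compDer (KaehlerDifferential.D k K)) (c j : K) = if i = j then 1 else 0 := by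
    intro i j
    change B.coord i (KaehlerDifferential.D k K (c j : K)) = _
    rw [← hB, Module.Basis.coord_apply, Module.Basis.repr_self, Finsupp.single_apply]
    simp only [eq_comm]
  refine ⟨fun i => (B.coord i).compDer (KaehlerDifferential.D k K), hp, fun i f hfO => ?_⟩
  have h3 : KaehlerDifferential.D k O ⟨f, hfO⟩ ∈
      Submodule.span O (Set.range fun i => KaehlerDifferential.D k O (c i)) := by
    rw [hc]
    exact Submodule.mem_top
  obtain ⟨a, ha⟩ := (Submodule.mem_span_range_iff_exists_fun O).1 h3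
  have h4 := congrArg (((B.coord i).compDer (KaehlerDifferential.D k K)).compAlgebraMap O).liftKaehlerDifferential ha
  rw [map_sum, Derivation.liftKaehlerDifferential_comp_D] at h4
  have h5 : ∀ j, (((B.coord i).compDer (KaehlerDifferential.D k K)).compAlgebraMap O).liftKaehlerDifferential
      (a j • KaehlerDifferential.D k O (c j)) = if i = j then (a j : K) else 0 := by
    intro j
    rw [map_smul, Derivation.liftKaehlerDifferential_comp_D]
    change (a j : K) * ((B.coord i).compDer (KaehlerDifferential.D k K)) (c j : K) = _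
    rw [hp]
    simp
  simp only [h5, Finset.sum_ite_eq, Finset.mem_univ, if_true] at h4
  change (a i : K) = ((B.coord i).compDer (KaehlerDifferential.D k K)) f at h4
  rw [← h4]
  exact (a i).2

end aux

variable {k K : Type} [Field k] [Field K] [Algebra k K] {X : Mod k K} {J : K → K → K → K} {κ : Cart X}

private theorem dsum (v : Fin 3 → K) (p : Fin 3 → Derivation k K K) (a : K) :
    (∑ j, v j • p j) a = ∑ j, v j * p j a := by
  rw [Fin.sum_univ_three, Fin.sum_univ_three]
  rfl


private theorem j_eq (hJ : Jac X J κ) (b e : K) : ∃ E : Derivation k K K, ∀ a, E a = J a b e := by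
  refine ⟨Derivation.mk'
    { toFun := fun a => J a b e
      map_add' := fun a a' => hJ.add a a' b e
      map_smul' := fun r a => by
        rw [Algebra.smul_def, hJ.leib, hJ.alg, mul_zero, add_zero, RingHom.id_apply, Algebra.smul_def] }
    (fun a a' => by
      change J (a * a') b e = a • J a' b e + a' • J a b e
      rw [hJ.leib, smul_eq_mul, smul_eq_mul]), fun a => rfl⟩

private theorem j_xxy [CharZero k] (hJ : Jac X J κ) (a b : K) : J a a b = 0 := by
  have : CharZero K := charZero_of_injective_algebraMap (algebraMap k K).injective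
  have h1 := hJ.s12 a a b
  exact self_eq_neg.1 h1

private theorem j_xyy [CharZero k] (hJ : Jac X J κ) (a b : K) : J a b b = 0 := by
  have : CharZero K := charZero_of_injective_algebraMap (algebraMap k K).injective
  have h1 := hJ.s23 a b b
  exact self_eq_neg.1 h1

private theorem j_xyx [CharZero k] (hJ : Jac X J κ) (a b : K) : J a b a = 0 := by
  rw [hJ.s23, j_xxy hJ, neg_zero]

theorem jac_det [CharZero k] (hJ : Jac X J κ) {D : Fin 3 → Derivation k K K} {c : Fin 3 → K}
    (hs : ∀ (E : Derivation k K K) (f : K), E f = ∑ i, E (c i) * D i f) (a b e : K) :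
    J a b e = J (c 0) (c 1) (c 2) *
      Matrix.det (Matrix.of ![fun i : Fin 3 => D i a, fun i => D i b, fun i => D i e]) := by
  have e1 : ∀ a b e, J a b e = J (c 0) b e * D 0 a + J (c 1) b e * D 1 a + J (c 2) b e * D 2 a := by
    intro a b e
    obtain ⟨E, hE⟩ := j_eq hJ b e
    have h1 := hs E a
    rw [Fin.sum_univ_three, hE, hE, hE, hE] at h1
    exact h1
  have e2 : ∀ a b e, J a b e = J a (c 0) e * D 0 b + J a (c 1) e * D 1 b + J a (c 2) e * D 2 b := by
    intro a b e
    have h1 := e1 b a e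
    rw [hJ.s12 a b e, h1, hJ.s12 a (c 0), hJ.s12 a (c 1), hJ.s12 a (c 2)]
    ring
  have e3 : ∀ a b e, J a b e = J a b (c 0) * D 0 e + J a b (c 1) * D 1 e + J a b (c 2) * D 2 e := by
    intro a b e
    have h1 := e2 a e b
    rw [hJ.s23 a b e, h1, hJ.s23 a b (c 0), hJ.s23 a b (c 1), hJ.s23 a b (c 2)]
    ring
  have z1 := fun a b => j_xxy hJ a b
  have z2 := fun a b => j_xyy hJ a b
  have z3 := fun a b => j_xyx hJ a b
  have s1 : J (c 0) (c 2) (c 1) = - J (c 0) (c 1) (c 2) := hJ.s23 _ _ _
  have s2 : J (c 1) (c 0) (c 2) = - J (c 0) (c 1) (c 2) := hJ.s12 _ _ _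
  have s3 : J (c 1) (c 2) (c 0) = J (c 0) (c 1) (c 2) := by rw [hJ.s23, s2, neg_neg]
  have s4 : J (c 2) (c 0) (c 1) = J (c 0) (c 1) (c 2) := by rw [hJ.s12, s1, neg_neg]
  have s5 : J (c 2) (c 1) (c 0) = - J (c 0) (c 1) (c 2) := by rw [hJ.s23, s4]
  have d0 : J a b e = J (c 0) (c 1) (c 2) * (D 0 a * D 1 b * D 2 e - D 0 a * D 2 b * D 1 e
      - D 1 a * D 0 b * D 2 e + D 1 a * D 2 b * D 0 e + D 2 a * D 0 b * D 1 e - D 2 a * D 1 b * D 0 e) := by
    rw [e1 a b e, e2 (c 0) b e, e2 (c 1) b e, e2 (c 2) b e]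
    rw [z1, z1, z1, e3 (c 0) (c 1) e, e3 (c 0) (c 2) e, e3 (c 1) (c 0) e, e3 (c 1) (c 2) e, e3 (c 2) (c 0) e,
      e3 (c 2) (c 1) e]
    simp only [z2, z3, s1, s2, s3, s4, s5]
    ring
  rw [d0, Matrix.det_fin_three]
  congr 1

theorem ex_coo [CharZero k] (hS : Pool.Agent.H20.TU.SmP X) (h : Hyp X) (hJ : Jac X J κ) (x : X.P) :
    ∃ (D : Fin 3 → Derivation k K K) (c : Fin 3 → K), (∀ i, c i ∈ X.O x) ∧
      (∀ i j, D i (c j) = if i = j then 1 else 0) ∧ (∀ i, ∀ f ∈ X.O x, D i f ∈ X.O x) ∧
      (∀ (E : Derivation k K K) (f : K), E f = ∑ i, E (c i) * D i f) ∧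
      Un (X.O x) (J (c 0) (c 1) (c 2) / κ.eq x) := by
  classical
  have hf : ∀ z : K, ∃ s ∈ X.O x, s ≠ 0 ∧ z * s ∈ X.O x := by
    intro z
    obtain ⟨U, hU, hx⟩ := h.var.chart x
    obtain ⟨s, hs, hs0, hzs⟩ := Pool.Agent.H20.TU.sec_frac h.var h.gen U hU ⟨x, hx⟩ z
    exact ⟨s, Pool.Agent.H20.TU.sec_le U x hx hs, hs0, Pool.Agent.H20.TU.sec_le U x hx hzs⟩
  obtain ⟨c, hc⟩ := hS x
  obtain ⟨p, hp, hpO⟩ := der_dual h.tr hf c hc
  have hs : ∀ (E : Derivation k K K) (f : K), E f = ∑ i, E (c i : K) * p i f := by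
    intro E f
    have h1 : E - ∑ j, (E (c j : K)) • p j = 0 := by
      refine der_zero hf c hc _ fun i => ?_
      rw [Derivation.sub_apply, sub_eq_zero, dsum]
      simp only [hp, mul_ite, mul_one, mul_zero, Finset.sum_ite_eq', Finset.mem_univ, if_true]
    have h2 := congrArg (fun D : Derivation k K K => D f) h1
    simp only [Derivation.sub_apply, dsum, Derivation.coe_zero, Pi.zero_apply] at h2
    exact sub_eq_zero.1 h2
  refine ⟨p, fun i => (c i : K), fun i => (c i).2, hp, hpO, hs, ?_⟩
  obtain ⟨a, ha, b, hb, e, he, hu⟩ := hJ.gen x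
  have h1 := jac_det hJ (D := p) (c := fun i => (c i : K)) hs a b e
  have h2 : J a b e / κ.eq x = J (c 0 : K) (c 1 : K) (c 2 : K) / κ.eq x *
      Matrix.det (Matrix.of ![fun i : Fin 3 => p i a, fun i => p i b, fun i => p i e]) := by
    rw [h1]
    ring
  rw [h2] at hu
  refine ((un_mul_iff (hJ.mem x _ (c 0).2 _ (c 1).2 _ (c 2).2) ?_).1 hu).1
  rw [Matrix.det_fin_three]
  simp only [Matrix.of_apply, Matrix.cons_val_zero, Matrix.cons_val_one, Matrix.cons_val_two, Matrix.head_cons,
    Matrix.tail_cons, Matrix.cons_val]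
  have q0 := fun i => hpO i a ha
  have q1 := fun i => hpO i b hb
  have q2 := fun i => hpO i e he
  exact sub_mem (add_mem (add_mem (sub_mem (sub_mem (mul_mem (mul_mem (q0 _) (q1 _)) (q2 _))
    (mul_mem (mul_mem (q0 _) (q1 _)) (q2 _))) (mul_mem (mul_mem (q0 _) (q1 _)) (q2 _)))
    (mul_mem (mul_mem (q0 _) (q1 _)) (q2 _))) (mul_mem (mul_mem (q0 _) (q1 _)) (q2 _)))
    (mul_mem (mul_mem (q0 _) (q1 _)) (q2 _))

end Pool.Agent.H43.WR
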