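import Pool.Agent.H43.WR.Def
import Pool.Agent.H16.WR.LinG
import Pool.Agent.H24.VP.Alg
import Pool.Agent.H24.TK.Fin

/-!
# [H43 WR GenU] THEOREM WR (MP_e49dc9_ag), (1): generation by `u`

`zpow_eq`: `(F ^ m).eq x = F.eq x ^ m`.
`gen_u`: `V + p₀ F`, `V + p₁ F`, `V + p₂ F` ample, `p₀ < p₁ < p₂`: for `n ≥ n₀` every section of `n (V + p₂ F)` is a combination of
products `u ^ j * f`, `f` a section of `n (V + p₁ F)`.

PROOF.  Fix `n ≥ 1` and put `H m = secL (V ^ n * F ^ m) 1`, `m : ℤ`.  `Pen H u` (H16/WR/LinG): `ne` = `hu`; `fd` = `H24.TK.fd`; `one`: `F.eq x ∈ X.O x` (`Pu.one`) and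
`(F ^ (m + 1)).eq x = (F ^ m).eq x * F.eq x`; `mul`: `Pu.sec`; `cap`: let `e = (V ^ n * F ^ m).eq x`; by `Pu.bpf` `F.eq x` is a unit, then
`g * e = g * (e * F.eq x) * (F.eq x)⁻¹`, or `u * F.eq x` is a unit, then `g * e = (u * g) * (e * F.eq x) * (u * F.eq x)⁻¹`.
`RR.ev` with `W = 1` and `A = V * F ^ p`, `p = p₀, p₁, p₂`: for large `n` `h0 ((V * F ^ p) ^ n) 1 = chi T l c ((V * F ^ p) ^ n)`, and
`(V * F ^ p) ^ n = V ^ n * F ^ (n * p)`.  `chi T l c (V ^ n * F ^ m) = α + β * m` with `α`, `β` which depend only on `n`: `T` is symmetric and additive in each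
argument (`Tri`; so `T (F ^ m) C D = m * T F C D` for `m : ℤ`), `l (F ^ m) = m * l F`, and all terms with two arguments `F` are zero (`hFF`):
`T W W W = n ^ 3 T V V V + 3 n ^ 2 m T V V F` for `W = V ^ n * F ^ m`.  `pen_gen` with `a = n * p₀`, `b = n * p₁`, `c = n * p₂`.
-/

set_option autoImplicit false

namespace Pool.Agent.H43.WR

open Pool.Agent.H54.RV Pool.Agent.H83.TU Pool.Agent.H83.TK Pool.Agent.H20.TD Pool.Agent.H20.TP Pool.Agent.H89.RS
open Pool.Agent.H24.VP (RR)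

variable {k K : Type} [Field k] [Field K] [Algebra k K] {X : Mod k K} {T : Cart X → Cart X → Cart X → ℝ} {l : Cart X → ℝ} {c : ℝ}
  {F : Cart X} {u : K}

theorem zpow_eq (F : Cart X) (m : ℤ) (x : X.P) : (F ^ m).eq x = F.eq x ^ m := by
  rcases m with n | n
  · rw [Int.ofNat_eq_natCast, zpow_natCast, zpow_natCast, pow_eq]
  · rw [zpow_negSucc, zpow_negSucc, inv_eq, pow_eq]

theorem un_zpow {O : Subalgebra k K} {a : K} (ha : Un O a) (n : ℤ) : Un O (a ^ n) := by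
  rcases n with n | n
  · rw [Int.ofNat_eq_natCast, zpow_natCast]
    exact un_pow ha n
  · rw [zpow_negSucc]
    exact un_inv (un_pow ha _)

/-- the spaces of sections of `n V + m F` -/
private theorem gu_pen [CharZero k] (h : Hyp X) (hP : Pu X F u) (hu : u ≠ 0) (D : Cart X) :
    Pool.Agent.H16.WR.Pen (fun m : ℤ => secL (D * F ^ m) 1) u := by
  have e : ∀ (m : ℤ) (x : X.P), (D * F ^ (m + 1)).eq x = (D * F ^ m).eq x * F.eq x := fun m x => by
    rw [zpow_add_one, ← mul_assoc, mul_eq (D * F ^ m)]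
  refine ⟨hu, fun m => ?_, fun m g hg x => ?_, fun m g hg x => ?_, fun m g hg hg' x => ?_⟩
  · obtain ⟨A, hA⟩ := h.amp
    exact Pool.Agent.H24.TK.fd h.var h.gen hA _
  · have h1 := hg x
    rw [pow_one] at h1 ⊢
    rw [e, ← mul_assoc]
    exact mul_mem h1 (hP.one x)
  · have h1 := hg x
    rw [pow_one] at h1 ⊢
    have e1 : u * g * (D * F ^ (m + 1)).eq x = g * (D * F ^ m).eq x * (u * F.eq x) := by
      rw [e]
      ring
    rw [e1]
    exact mul_mem h1 (hP.sec x)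
  · have h1 := hg x
    have h2 := hg' x
    rw [pow_one, e] at h1 h2
    rw [pow_one]
    rcases hP.bpf x with h3 | h3
    · have e1 : g * (D * F ^ m).eq x = g * ((D * F ^ m).eq x * F.eq x) * (F.eq x)⁻¹ := by
        have := h3.1
        field_simp
      rw [e1]
      exact mul_mem h1 h3.2.2
    · have e1 : g * (D * F ^ m).eq x = u * g * ((D * F ^ m).eq x * F.eq x) * (u * F.eq x)⁻¹ := by
        have := h3.1
        have h4 := F.ne x
        field_simp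
      rw [e1]
      exact mul_mem h2 h3.2.2

/-- the Hilbert polynomial is affine in the direction of the pencil -/
private theorem gu_chi (hr : RR T l c) (hFF : ∀ D, T F F D = 0) (D : Cart X) (m : ℤ) :
    Pool.Agent.H24.VP.chi T l c (D * F ^ m) = (T D D D / 6 + l D + c) + (T D D F / 2 + l F) * m := by
  have hl : l (F ^ m) = m * l F := by
    obtain ⟨f, hf⟩ := hr.lhom
    rw [← hf, ← hf, map_zpow, toAdd_zpow, zsmul_eq_mul]
  have h1 : T F D F = 0 := by rw [hr.tri.s23, hFF]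
  have h2 : T D F F = 0 := by rw [hr.tri.s12, h1]
  have h3 : T F D D = T D D F := by rw [hr.tri.s12, hr.tri.s23]
  have h4 : T D F D = T D D F := hr.tri.s23 _ _ _
  unfold Pool.Agent.H24.VP.chi
  rw [hr.ladd, hl]
  simp only [hr.tri.add, hr.tri.add2, hr.tri.add3, hr.tri.zpow, hr.tri.zpow2, hr.tri.zpow3]
  rw [h1, h2, h3, h4, hFF, hFF]
  ring

theorem gen_u [CharZero k] (h : Hyp X) (hr : RR T l c) (hP : Pu X F u) (hu : u ≠ 0) (hFF : ∀ D, T F F D = 0)
    {V : Cart X} {p₀ p₁ p₂ : ℤ} (h01 : p₀ < p₁) (h12 : p₁ < p₂) (hA0 : Ample (V * F ^ p₀))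
    (hA1 : Ample (V * F ^ p₁)) (hA2 : Ample (V * F ^ p₂)) :
    ∃ n₀ : ℕ, ∀ n ≥ n₀, ∀ s, Sec (V ^ n * F ^ (n * p₂)) 1 s →
      s ∈ Submodule.span k {x : K | ∃ (j : ℕ) (f : K), Sec (V ^ n * F ^ (n * p₁)) 1 f ∧ x = u ^ j * f} := by
  have hone : ∀ p : ℤ, ∀ n : ℕ, 1 * (V * F ^ p) ^ n = V ^ n * F ^ ((n : ℤ) * p) := by
    intro p n
    rw [one_mul, mul_pow, ← zpow_natCast (F ^ p), ← zpow_mul, mul_comm p]
  obtain ⟨a₀, ha⟩ := hr.ev 1 _ hA0
  obtain ⟨b₀, hb⟩ := hr.ev 1 _ hA1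
  obtain ⟨c₀, hc⟩ := hr.ev 1 _ hA2
  refine ⟨a₀ + b₀ + c₀ + 1, fun n hn s hs => ?_⟩
  have hn0 : (0 : ℤ) < n := by exact_mod_cast (show 0 < n by omega)
  have h1 := ha n (by omega)
  have h2 := hb n (by omega)
  have h3 := hc n (by omega)
  rw [hone, gu_chi hr hFF] at h1 h2 h3
  exact Pool.Agent.H16.WR.pen_gen (gu_pen h hP hu (V ^ n)) (mul_lt_mul_of_pos_left h01 hn0)
    (mul_lt_mul_of_pos_left h12 hn0) h1 h2 h3 s hs

end Pool.Agent.H43.WR
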