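import Pool.Agent.H43.WR.Def
import Pool.Agent.H89.RS.Der

/-!
# [H43 WR Jt3] THEOREM WR (MP_e49dc9_ag): a full dual basis of the derivations at a curve

`Jet3 X y d t`: a dual basis of the derivations of `K` at `y`, `d 2` is tangent to the curve: it maps the maximal ideal at `y` to itself.

PROOF of `ex_jet3` (as `ex_jet` in H89/RS/Der, copy the private lemmas from there).  `O` = the local ring at `y`, `m` its maximal ideal,
`κ(y)` = its residue field.  `Ω[O/k]` is generated by the differentials of three elements `c i` (`SmP`); `der_dual`: `p i` the dual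
derivations of `K`, `p i (c j) = δ_ij`, they preserve `O`.  `der_grad`: `f 1, f 2 ∈ m`, `f 0 ∈ O` with `det (p j (f i))` a unit of `O`.
Put `t 0 = f 1`, `t 1 = f 2`, `t 2 = f 0`, `d` = the dual basis (rows of the inverse matrix times `p`), as in `ex_jet`.  `span`: a
derivation `D` of `K` minus `∑ D (t i) • d i` is zero on the `t i`; the derivations of `K` are the combinations of the `p i` (`der_zero`:
`D - ∑ D (c i) • p i = 0`), and the matrix `p j (t i)` is invertible.  `cm`: the commutator `d i d j - d j d i` is a derivation which is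
zero on the `t i`.
`tan`.  The map `f ↦ X.rs y (d 2 f)`, `O → κ(y)`, is a derivation over `X.rs y`.  Suppose there is `z ∈ m` with `X.rs y (d 2 z) ≠ 0`.  The
residue field has transcendence degree `1`, so it has a nonzero derivation over `k` (characteristic `0`; a transcendence basis `v`, the
derivation `d/dv` of `k(v)` extends to the algebraic separable extension; compare `der_mem` in H89/RS/Der, which proves what is needed in
the other direction), say `e : κ(y) → κ(y)`.  `f ↦ e (X.rs y f)` is a derivation `O → κ(y)`; it is the combination `∑ a i * X.rs y (d i f)`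
with `a i = e (X.rs y (t i))` (both sides are zero.. they agree on the `t i`, whose differentials generate `Ω[O/k]`:
`der_zeroO`); `a 0 = a 1 = 0` because `t 0, t 1 ∈ m`.  So `e (X.rs y f) = a 2 * X.rs y (d 2 f)`, `a 2 ≠ 0` because `e ≠ 0`; at `f = z`:
`0 = a 2 * X.rs y (d 2 z) ≠ 0`, a contradiction.
-/

set_option autoImplicit false

namespace Pool.Agent.H43.WR

open Pool.Agent.H54.RV Pool.Agent.H83.TU Pool.Agent.H83.TK Pool.Agent.H20.TD Pool.Agent.H20.TP Pool.Agent.H89.RS

section aux

variable {k K : Type} [Field k] [Field K] [Algebra k K] {O : Subalgebra k K}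

/-- a derivation which is zero at the coordinates is zero on the local ring -/
private theorem der_zeroO {M : Type*} [AddCommGroup M] [Module k M] [Module O M] [IsScalarTower k O M]
    (c : Fin 3 → O) (hc : Submodule.span O (Set.range fun i => KaehlerDifferential.D k O (c i)) = ⊤)
    (δ : Derivation k O M) (h : ∀ i, δ (c i) = 0) : δ = 0 := by
  have hl : δ.liftKaehlerDifferential = 0 := by
    refine LinearMap.ext_on_range (v := fun i => KaehlerDifferential.D k O (c i)) hc ?_
    intro i
    rw [Derivation.liftKaehlerDifferential_comp_D, h, LinearMap.zero_apply]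
  ext a
  rw [← Derivation.liftKaehlerDifferential_comp_D δ a, hl, LinearMap.zero_apply]
  rfl

/-- a derivation of the field which is zero at the coordinates is zero -/
private theorem der_zero {M : Type*} [AddCommGroup M] [Module k M] [Module K M] [IsScalarTower k K M]
    (hf : ∀ z : K, ∃ s ∈ O, s ≠ 0 ∧ z * s ∈ O) (c : Fin 3 → O)
    (hc : Submodule.span O (Set.range fun i => KaehlerDifferential.D k O (c i)) = ⊤)
    (δ : Derivation k K M) (h : ∀ i, δ (c i : K) = 0) : δ = 0 := by
  have : IsScalarTower k O M := ⟨fun r a m => by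
    change ((r • a : O) : K) • m = r • ((a : K) • m)
    rw [← smul_assoc]
    rfl⟩
  have h1 : δ.compAlgebraMap O = 0 := der_zeroO c hc _ h
  have h2 : ∀ a : O, δ (a : K) = 0 := fun a => congrArg (fun d : Derivation k O M => d a) h1
  ext z
  obtain ⟨s, hs, hs0, hzs⟩ := hf z
  have h3 := h2 ⟨_, hzs⟩
  change δ (z * s) = 0 at h3
  have h4 := h2 ⟨s, hs⟩
  change δ s = 0 at h4
  rw [Derivation.leibniz, h4, smul_zero, zero_add] at h3
  exact (smul_eq_zero.1 h3).resolve_left hs0

/-- the dual derivations -/
private theorem der_dual [CharZero k] (htr : Algebra.trdeg k K = 3) (hf : ∀ z : K, ∃ s ∈ O, s ≠ 0 ∧ z * s ∈ O)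
    (c : Fin 3 → O) (hc : Submodule.span O (Set.range fun i => KaehlerDifferential.D k O (c i)) = ⊤) :
    ∃ p : Fin 3 → Derivation k K K, (∀ i j, p i (c j : K) = if i = j then 1 else 0) ∧
      ∀ i, ∀ f ∈ O, p i f ∈ O := by
  classical
  obtain ⟨b, hb⟩ : ∃ b : Fin 3 → K, IsTranscendenceBasis k b := by
    obtain ⟨b, hb⟩ := Pool.Agent.H20.TU.exists_indep 3 (by exact_mod_cast htr.ge)
    refine ⟨b, hb.isTranscendenceBasis_of_trdeg_le_of_finite ?_⟩
    rw [Cardinal.mk_fin, htr]
    norm_num
  obtain ⟨N, hN⟩ : ∃ N : Submodule K (Ω[K⁄k]),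
      N = Submodule.span K (Set.range fun i => KaehlerDifferential.D k K (c i : K)) := ⟨_, rfl⟩
  have h1 : N = ⊤ := by
    let δ : Derivation k K ((Ω[K⁄k]) ⧸ N) := N.mkQ.compDer (KaehlerDifferential.D k K)
    have hδ : δ = 0 := by
      refine der_zero hf c hc δ fun i => ?_
      change N.mkQ (KaehlerDifferential.D k K (c i : K)) = 0
      rw [Submodule.mkQ_apply, Submodule.Quotient.mk_eq_zero, hN]
      exact Submodule.subset_span ⟨i, rfl⟩
    rw [eq_top_iff, ← KaehlerDifferential.span_range_derivation, Submodule.span_le]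
    rintro _ ⟨a, rfl⟩
    have h2 : δ a = 0 := by rw [hδ]; rfl
    change N.mkQ (KaehlerDifferential.D k K a) = 0 at h2
    rwa [Submodule.mkQ_apply, Submodule.Quotient.mk_eq_zero] at h2
  have hfin : Module.Finite K (Ω[K⁄k]) := by
    refine ⟨⟨Finset.univ.image fun i => KaehlerDifferential.D k K (c i : K), ?_⟩⟩
    rw [Finset.coe_image, Finset.coe_univ, Set.image_univ, ← hN, h1]
  have hle := Pool.Agent.H20.TU.finrank_omega htr
  have hge : 3 ≤ Module.finrank K (Ω[K⁄k]) := by
    have hli : LinearIndependent K fun i => KaehlerDifferential.D k K (b i) := by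
      rw [Fintype.linearIndependent_iff]
      intro g hg i
      obtain ⟨D, hD⟩ := Pool.Agent.H24.TU.exists_derivation hb (fun j => if j = i then (1 : K) else 0)
      have h2 := congrArg D.liftKaehlerDifferential hg
      rw [map_sum, map_zero] at h2
      simp only [map_smul, Derivation.liftKaehlerDifferential_comp_D, hD, smul_eq_mul, mul_ite, mul_one, mul_zero,
        Finset.sum_ite_eq', Finset.mem_univ, if_true] at h2
      exact h2
    have := hli.fintype_card_le_finrank
    simpa using this
  have hli : LinearIndependent K fun i => KaehlerDifferential.D k K (c i : K) := by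
    refine linearIndependent_of_top_le_span_of_card_eq_finrank (by rw [← hN, h1]) ?_
    rw [Fintype.card_fin]
    omega
  let B := Module.Basis.mk hli (by rw [← hN, h1])
  have hB : ∀ i, B i = KaehlerDifferential.D k K (c i : K) := fun i => Module.Basis.mk_apply _ _ i
  have hp : ∀ i j, ((B.coord i).compDer (KaehlerDifferential.D k K)) (c j : K) = if i = j then 1 else 0 := by
    intro i j
    change B.coord i (KaehlerDifferential.D k K (c j : K)) = _
    rw [← hB, Module.Basis.coord_apply, Module.Basis.repr_self, Finsupp.single_apply]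
    simp only [eq_comm]
  refine ⟨fun i => (B.coord i).compDer (KaehlerDifferential.D k K), hp, fun i f hfO => ?_⟩
  have h3 : KaehlerDifferential.D k O ⟨f, hfO⟩ ∈
      Submodule.span O (Set.range fun i => KaehlerDifferential.D k O (c i)) := by
    rw [hc]
    exact Submodule.mem_top
  obtain ⟨a, ha⟩ := (Submodule.mem_span_range_iff_exists_fun O).1 h3
  have h4 := congrArg (((B.coord i).compDer (KaehlerDifferential.D k K)).compAlgebraMap O).liftKaehlerDifferential ha
  rw [map_sum, Derivation.liftKaehlerDifferential_comp_D] at h4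
  have h5 : ∀ j, (((B.coord i).compDer (KaehlerDifferential.D k K)).compAlgebraMap O).liftKaehlerDifferential
      (a j • KaehlerDifferential.D k O (c j)) = if i = j then (a j : K) else 0 := by
    intro j
    rw [map_smul, Derivation.liftKaehlerDifferential_comp_D]
    change (a j : K) * ((B.coord i).compDer (KaehlerDifferential.D k K)) (c j : K) = _
    rw [hp]
    simp
  simp only [h5, Finset.sum_ite_eq, Finset.mem_univ, if_true] at h4
  change (a i : K) = ((B.coord i).compDer (KaehlerDifferential.D k K)) f at h4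
  rw [← h4]
  exact (a i).2

end aux

section aux2

variable {k K : Type} [Field k] [Field K] [Algebra k K] {O : Subalgebra k K}

/-- restriction of a derivation to the local ring -/
private def dres (p : Derivation k K K) (h : ∀ f ∈ O, p f ∈ O) : Derivation k O O :=
  Derivation.mk'
    { toFun := fun f => ⟨p f, h f f.2⟩
      map_add' := fun a b => Subtype.ext (map_add p (a : K) (b : K))
      map_smul' := fun r a => Subtype.ext (p.map_smul r (a : K)) }
    (fun a b => Subtype.ext (p.leibniz (a : K) (b : K)))

private theorem dsum (v : Fin 3 → K) (p : Fin 3 → Derivation k K K) (a : K) :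
    (∑ j, v j • p j) a = ∑ j, v j * p j a := by
  rw [Fin.sum_univ_three, Fin.sum_univ_three]
  rfl

private theorem dres_apply (p : Derivation k K K) (h : ∀ f ∈ O, p f ∈ O) (f : O) : ((dres p h f : O) : K) = p f := rfl

/-- the gradients modulo the maximal ideal -/
private theorem der_mem [CharZero k] [IsLocalRing O] (p : Fin 3 → Derivation k O O)
    {u : Fin 1 → IsLocalRing.ResidueField O} (hu : IsTranscendenceBasis k u) (cc : O)
    (hcc : IsLocalRing.residue O cc = u 0) (N : Submodule (IsLocalRing.ResidueField O) (Fin 3 → IsLocalRing.ResidueField O))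
    (hN : ∀ t ∈ IsLocalRing.maximalIdeal O, (fun i => IsLocalRing.residue O (p i t)) ∈ N)
    (hN2 : (fun i => IsLocalRing.residue O (p i cc)) ∈ N) (f : O) : (fun i => IsLocalRing.residue O (p i f)) ∈ N := by
  obtain ⟨g, hg⟩ : ∃ g : O → (Fin 3 → IsLocalRing.ResidueField O), g = fun f i => IsLocalRing.residue O (p i f) :=
    ⟨_, rfl⟩
  have hgf : ∀ f, (fun i => IsLocalRing.residue O (p i f)) = g f := fun f => by rw [hg]
  rw [hgf] at hN2 ⊢
  simp only [hgf] at hN
  have hadd : ∀ a b, g (a + b) = g a + g b := by
    intro a b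
    rw [hg]
    funext i
    simp only [map_add, Pi.add_apply]
  have hsub : ∀ a b, g (a - b) = g a - g b := by
    intro a b
    rw [hg]
    funext i
    simp only [map_sub, Pi.sub_apply]
  have hmul : ∀ a b, g (a * b) = IsLocalRing.residue O a • g b + IsLocalRing.residue O b • g a := by
    intro a b
    rw [hg]
    funext i
    simp only [Derivation.leibniz, smul_eq_mul, map_add, map_mul, Pi.add_apply, Pi.smul_apply]
  have hsm : ∀ (r : k) a, g (r • a) = r • g a := by
    intro r a
    rw [hg]
    funext i
    simp only [Derivation.map_smul, Pi.smul_apply]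
    rfl
  have hli : ∀ x : IsLocalRing.ResidueField O, ∃ a : O, IsLocalRing.residue O a = x := IsLocalRing.residue_surjective
  choose s hs using hli
  have hwd : ∀ a b : O, IsLocalRing.residue O a = IsLocalRing.residue O b → N.mkQ (g a) = N.mkQ (g b) := by
    intro a b hab
    rw [← sub_eq_zero, ← map_sub, ← hsub, Submodule.mkQ_apply, Submodule.Quotient.mk_eq_zero]
    refine hN _ ?_
    rw [← IsLocalRing.residue_eq_zero_iff, map_sub, hab, sub_self]
  let δ : Derivation k (IsLocalRing.ResidueField O) ((Fin 3 → IsLocalRing.ResidueField O) ⧸ N) :=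
    Derivation.mk'
      { toFun := fun x => N.mkQ (g (s x))
        map_add' := fun x y => by
          rw [← map_add, ← hadd]
          refine hwd _ _ ?_
          rw [map_add, hs, hs, hs]
        map_smul' := fun r x => by
          have h1 : N.mkQ (g (s (r • x))) = N.mkQ (g (r • s x)) := by
            refine hwd _ _ ?_
            rw [hs]
            have h2 : IsLocalRing.residue O (r • s x) = r • IsLocalRing.residue O (s x) := rfl
            rw [h2, hs]
          rw [h1, hsm]
          rfl }
      (fun x y => by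
        change N.mkQ (g (s (x * y))) = x • N.mkQ (g (s y)) + y • N.mkQ (g (s x))
        have h1 : N.mkQ (g (s (x * y))) = N.mkQ (g (s x * s y)) := by
          refine hwd _ _ ?_
          rw [map_mul, hs, hs, hs]
        rw [h1, hmul, hs, hs, map_add, map_smul, map_smul])
  have hδ : δ = 0 := by
    refine Pool.Agent.H24.TU.derivation_eq_zero hu δ fun i => ?_
    have hi : i = 0 := Subsingleton.elim _ _
    rw [hi]
    change N.mkQ (g (s (u 0))) = 0
    rw [hwd (s (u 0)) cc (by rw [hs, hcc]), Submodule.mkQ_apply, Submodule.Quotient.mk_eq_zero]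
    exact hN2
  have h1 : δ (IsLocalRing.residue O f) = 0 := by rw [hδ]; rfl
  change N.mkQ (g (s (IsLocalRing.residue O f))) = 0 at h1
  rwa [hwd _ f (hs _), Submodule.mkQ_apply, Submodule.Quotient.mk_eq_zero] at h1

/-- three functions with independent gradients -/
private theorem der_grad [CharZero k] [IsLocalRing O] (htr : Algebra.trdeg k (IsLocalRing.ResidueField O) = 1)
    (c : Fin 3 → O) (p : Fin 3 → Derivation k O O) (hp : ∀ i j, p i (c j) = if i = j then 1 else 0) :
    ∃ f : Fin 3 → O, f 1 ∈ IsLocalRing.maximalIdeal O ∧ f 2 ∈ IsLocalRing.maximalIdeal O ∧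
      IsUnit (Matrix.det (Matrix.of fun i j => p j (f i))) := by
  classical
  obtain ⟨u, hu⟩ : ∃ u : Fin 1 → IsLocalRing.ResidueField O, IsTranscendenceBasis k u := by
    obtain ⟨u, hu⟩ := Pool.Agent.H20.TU.exists_indep (k := k) (D := IsLocalRing.ResidueField O) 1 (by exact_mod_cast htr.ge)
    refine ⟨u, hu.isTranscendenceBasis_of_trdeg_le_of_finite ?_⟩
    rw [Cardinal.mk_fin, htr]
    norm_num
  obtain ⟨cc, hcc⟩ := IsLocalRing.residue_surjective (R := O) (u 0)
  obtain ⟨g, hg⟩ : ∃ g : O → (Fin 3 → IsLocalRing.ResidueField O), g = fun f i => IsLocalRing.residue O (p i f) :=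
    ⟨_, rfl⟩
  have hgc : ∀ j, g (c j) = Pi.single j 1 := by
    intro j
    rw [hg]
    funext i
    simp only [hp, Pi.single_apply]
    split_ifs with h1
    · exact map_one _
    · exact map_zero _
  have hspan : ∀ N : Submodule (IsLocalRing.ResidueField O) (Fin 3 → IsLocalRing.ResidueField O),
      (∀ j, g (c j) ∈ N) → N = ⊤ := by
    intro N hN
    rw [eq_top_iff]
    intro v _
    have h1 : v = ∑ j, v j • g (c j) := by
      funext i
      simp only [hgc, Finset.sum_apply, Pi.smul_apply, Pi.single_apply, smul_eq_mul, mul_ite, mul_one, mul_zero,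
        Finset.sum_ite_eq, Finset.mem_univ, if_true]
    rw [h1]
    exact Submodule.sum_mem _ fun j _ => Submodule.smul_mem _ _ (hN j)
  set W : Submodule (IsLocalRing.ResidueField O) (Fin 3 → IsLocalRing.ResidueField O) :=
    Submodule.span _ (g '' (IsLocalRing.maximalIdeal O : Set O)) with hW
  have hV : Module.finrank (IsLocalRing.ResidueField O) (Fin 3 → IsLocalRing.ResidueField O) = 3 := by simp
  have h3 : W ⊔ Submodule.span _ {g cc} = ⊤ := by
    refine hspan _ fun j => ?_
    have h4 := der_mem p hu cc hcc (W ⊔ Submodule.span _ {g cc})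
      (fun t ht => Submodule.mem_sup_left (Submodule.subset_span ⟨t, ht, by rw [hg]⟩))
      (by
        refine Submodule.mem_sup_right (Submodule.subset_span ?_)
        rw [hg]
        rfl) (c j)
    have h5 : g (c j) = fun i => IsLocalRing.residue O (p i (c j)) := by rw [hg]
    rw [h5]
    exact h4
  have hW2 : 2 ≤ Module.finrank (IsLocalRing.ResidueField O) W := by
    have h5 := Submodule.finrank_add_le_finrank_add_finrank W (Submodule.span _ {g cc})
    rw [h3, finrank_top, hV] at h5
    have h6 : Module.finrank (IsLocalRing.ResidueField O)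
        (Submodule.span (IsLocalRing.ResidueField O) {g cc}) ≤ 1 := by
      have := finrank_span_le_card (R := IsLocalRing.ResidueField O) ({g cc} : Set (Fin 3 → IsLocalRing.ResidueField O))
      simpa using this
    omega
  obtain ⟨b, hbs, hbspan, hbli⟩ := exists_linearIndependent (IsLocalRing.ResidueField O)
    (g '' (IsLocalRing.maximalIdeal O : Set O))
  have hbfin : b.Finite := hbli.setFinite
  have hbF : Fintype b := hbfin.fintype
  have hb2 : 1 < b.toFinset.card := by
    have h7 := finrank_span_set_eq_card hbli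
    rw [hbspan, ← hW] at h7
    omega
  obtain ⟨v0, hv0, v1, hv1, hne⟩ := Finset.one_lt_card.1 hb2
  rw [Set.mem_toFinset] at hv0 hv1
  obtain ⟨t0, ht0, rfl⟩ := hbs hv0
  obtain ⟨t1, ht1, rfl⟩ := hbs hv1
  have hli2 : LinearIndependent (IsLocalRing.ResidueField O) ![g t0, g t1] := by
    have h8 := hbli.comp ![(⟨g t0, hv0⟩ : b), ⟨g t1, hv1⟩] (by
      intro i j hij
      fin_cases i <;> fin_cases j
      · rfl
      · exact absurd (congrArg Subtype.val hij) hne
      · exact absurd (congrArg Subtype.val hij).symm hne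
      · rfl)
    have h9 : (![g t0, g t1] : Fin 2 → _) = Subtype.val ∘ ![(⟨g t0, hv0⟩ : b), ⟨g t1, hv1⟩] := by
      funext i
      fin_cases i <;> rfl
    rw [h9]
    exact h8
  obtain ⟨j, hj⟩ : ∃ j, g (c j) ∉ Submodule.span (IsLocalRing.ResidueField O) (Set.range ![g t0, g t1]) := by
    by_contra hcon
    push Not at hcon
    have h9 := hspan _ hcon
    have h10 := finrank_range_le_card (R := IsLocalRing.ResidueField O) ![g t0, g t1]
    rw [Set.finrank, h9, finrank_top, hV] at h10
    simp at h10
  have hli3 : LinearIndependent (IsLocalRing.ResidueField O) (Fin.cons (g (c j)) ![g t0, g t1] : Fin 3 → _) :=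
    linearIndependent_finCons.2 ⟨hli2, hj⟩
  refine ⟨![c j, t0, t1], ht0, ht1, ?_⟩
  rw [← IsLocalRing.residue_ne_zero_iff_isUnit, RingHom.map_det]
  have h11 : (IsLocalRing.residue O).mapMatrix (Matrix.of fun i j' => p j' (![c j, t0, t1] i)) =
      Matrix.of (Fin.cons (g (c j)) ![g t0, g t1] : Fin 3 → _) := by
    ext i l
    rw [hg]
    fin_cases i <;> rfl
  rw [h11]
  have h12 : IsUnit (Matrix.of (Fin.cons (g (c j)) ![g t0, g t1] : Fin 3 → _)) :=
    Matrix.linearIndependent_rows_iff_isUnit.1 hli3
  exact ((Matrix.isUnit_iff_isUnit_det _).1 h12).ne_zero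

/-- the third derivation is tangent to the curve -/
private theorem der_tan [CharZero k] [IsLocalRing O] (htr : Algebra.trdeg k (IsLocalRing.ResidueField O) = 1)
    (t : Fin 3 → O) (ht : Submodule.span O (Set.range fun i => KaehlerDifferential.D k O (t i)) = ⊤)
    (δ : Fin 3 → Derivation k O O) (hδ : ∀ i j, δ i (t j) = if i = j then 1 else 0)
    (h0 : t 0 ∈ IsLocalRing.maximalIdeal O) (h1 : t 1 ∈ IsLocalRing.maximalIdeal O) (f : O)
    (hf : f ∈ IsLocalRing.maximalIdeal O) : δ 2 f ∈ IsLocalRing.maximalIdeal O := by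
  classical
  obtain ⟨u, hu⟩ : ∃ u : Fin 1 → IsLocalRing.ResidueField O, IsTranscendenceBasis k u := by
    obtain ⟨u, hu⟩ := Pool.Agent.H20.TU.exists_indep (k := k) (D := IsLocalRing.ResidueField O) 1 (by exact_mod_cast htr.ge)
    refine ⟨u, hu.isTranscendenceBasis_of_trdeg_le_of_finite ?_⟩
    rw [Cardinal.mk_fin, htr]
    norm_num
  obtain ⟨cc, hcc⟩ := IsLocalRing.residue_surjective (R := O) (u 0)
  obtain ⟨e, he⟩ := Pool.Agent.H24.TU.exists_derivation hu (fun _ => (1 : IsLocalRing.ResidueField O))
  obtain ⟨a, ha⟩ : ∃ a : Fin 3 → IsLocalRing.ResidueField O, a = fun i => e (IsLocalRing.residue O (t i)) := ⟨_, rfl⟩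
  have hri : ∀ x y : O, IsLocalRing.residue O (x * y) = IsLocalRing.residue O x * IsLocalRing.residue O y := map_mul _
  let E : Derivation k O (IsLocalRing.ResidueField O) :=
    Derivation.mk'
      { toFun := fun g => e (IsLocalRing.residue O g) - ∑ i, a i * IsLocalRing.residue O (δ i g)
        map_add' := fun x y => by
          simp only [map_add, mul_add, Finset.sum_add_distrib]
          ring
        map_smul' := fun r x => by
          have h2 : ∀ y : O, IsLocalRing.residue O (r • y) = r • IsLocalRing.residue O y := fun _ => rfl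
          simp only [Derivation.map_smul, h2, mul_smul_comm, ← Finset.smul_sum, smul_sub, RingHom.id_apply] }
      (fun x y => by
        change e (IsLocalRing.residue O (x * y)) - ∑ i, a i * IsLocalRing.residue O (δ i (x * y)) =
          IsLocalRing.residue O x * (e (IsLocalRing.residue O y) - ∑ i, a i * IsLocalRing.residue O (δ i y)) +
          IsLocalRing.residue O y * (e (IsLocalRing.residue O x) - ∑ i, a i * IsLocalRing.residue O (δ i x))
        simp only [Derivation.leibniz, smul_eq_mul, map_add, map_mul, Fin.sum_univ_three]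
        ring)
  have hE : E = 0 := by
    refine der_zeroO t ht E fun l => ?_
    change e (IsLocalRing.residue O (t l)) - ∑ i, a i * IsLocalRing.residue O (δ i (t l)) = 0
    have h3 : ∀ i, a i * IsLocalRing.residue O (δ i (t l)) = if i = l then a i else 0 := by
      intro i
      rw [hδ]
      split_ifs
      · rw [map_one, mul_one]
      · rw [map_zero, mul_zero]
    simp only [h3, Finset.sum_ite_eq', Finset.mem_univ, if_true]
    rw [ha, sub_self]
  have hEa : ∀ g : O, e (IsLocalRing.residue O g) = a 2 * IsLocalRing.residue O (δ 2 g) := by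
    intro g
    have h4 : E g = 0 := by rw [hE]; rfl
    change e (IsLocalRing.residue O g) - ∑ i, a i * IsLocalRing.residue O (δ i g) = 0 at h4
    have h5 : a 0 = 0 := by
      rw [ha]
      change e (IsLocalRing.residue O (t 0)) = 0
      rw [(IsLocalRing.residue_eq_zero_iff _).2 h0, map_zero]
    have h6 : a 1 = 0 := by
      rw [ha]
      change e (IsLocalRing.residue O (t 1)) = 0
      rw [(IsLocalRing.residue_eq_zero_iff _).2 h1, map_zero]
    rw [Fin.sum_univ_three, h5, h6, zero_mul, zero_mul, zero_add, zero_add] at h4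
    exact sub_eq_zero.1 h4
  have h7 : a 2 ≠ 0 := by
    intro h8
    have h9 := hEa cc
    rw [hcc, he, h8, zero_mul] at h9
    exact one_ne_zero h9
  have h10 := hEa f
  rw [(IsLocalRing.residue_eq_zero_iff _).2 hf, map_zero] at h10
  exact (IsLocalRing.residue_eq_zero_iff _).1 ((mul_eq_zero.1 h10.symm).resolve_left h7)

end aux2

variable {k K : Type} [Field k] [Field K] [Algebra k K]

/-- a dual basis of the derivations at `y` -/
structure Jet3 (X : Mod k K) (y : X.P) (d : Fin 3 → Derivation k K K) (t : Fin 3 → K) : Prop where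
  st : ∀ i, ∀ f ∈ X.O y, d i f ∈ X.O y
  cm : ∀ i j f, d i (d j f) = d j (d i f)
  mem : ∀ i, t i ∈ X.O y
  dual : ∀ i j, d i (t j) = if i = j then 1 else 0
  span : ∀ (D : Derivation k K K) (f : K), D f = ∑ i, D (t i) * d i f
  zero : ∀ i : Fin 3, i ≠ 2 → X.rs y (t i) = 0
  tan : ∀ f ∈ X.O y, X.rs y f = 0 → X.rs y (d 2 f) = 0

theorem ex_jet3 {X : Mod k K} [CharZero k] [IsAlgClosed k] (hS : Pool.Agent.H20.TU.SmP X) (h : Hyp X) {y : X.P}
    (hy : Algebra.trdeg k (X.kap y) = 1) : ∃ (d : Fin 3 → Derivation k K K) (t : Fin 3 → K), Jet3 X y d t := by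
  classical
  have hf : ∀ z : K, ∃ s ∈ X.O y, s ≠ 0 ∧ z * s ∈ X.O y := by
    intro z
    obtain ⟨U, hU, hx⟩ := h.var.chart y
    obtain ⟨s, hs, hs0, hzs⟩ := Pool.Agent.H20.TU.sec_frac h.var h.gen U hU ⟨y, hx⟩ z
    exact ⟨s, Pool.Agent.H20.TU.sec_le U y hx hs, hs0, Pool.Agent.H20.TU.sec_le U y hx hzs⟩
  obtain ⟨c, hc⟩ := hS y
  obtain ⟨p, hp, hpO⟩ := der_dual h.tr hf c hc
  obtain ⟨f, hf1, hf2, hdet⟩ := der_grad (O := X.O y) hy c (fun i => dres (p i) (hpO i)) (fun i j => by
    apply Subtype.ext
    rw [dres_apply, hp]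
    split_ifs <;> rfl)
  obtain ⟨J, hJ⟩ : ∃ J : Matrix (Fin 3) (Fin 3) (X.O y), J = Matrix.of fun i j => dres (p j) (hpO j) (f i) := ⟨_, rfl⟩
  rw [← hJ] at hdet
  have hJa : ∀ i j, ((J i j : X.O y) : K) = p j (f i) := fun i j => by rw [hJ]; rfl
  obtain ⟨B, hB⟩ : ∃ B : Matrix (Fin 3) (Fin 3) (X.O y), B = J⁻¹ := ⟨_, rfl⟩
  have hJB : J * B = 1 := by rw [hB]; exact Matrix.mul_nonsing_inv J hdet
  have hBJ : B * J = 1 := by rw [hB]; exact Matrix.nonsing_inv_mul J hdet
  have hJBa : ∀ l i, ∑ j, (J l j : K) * (B j i : K) = if l = i then 1 else 0 := by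
    intro l i
    have h1 := congrFun (congrFun hJB l) i
    rw [Matrix.mul_apply, Matrix.one_apply] at h1
    have h2 := congrArg (algebraMap (X.O y) K) h1
    rw [map_sum] at h2
    refine Eq.trans ?_ (h2.trans ?_)
    · rfl
    · split_ifs <;> simp
  have hBJa : ∀ l i, ∑ j, (B l j : K) * (J j i : K) = if l = i then 1 else 0 := by
    intro l i
    have h1 := congrFun (congrFun hBJ l) i
    rw [Matrix.mul_apply, Matrix.one_apply] at h1
    have h2 := congrArg (algebraMap (X.O y) K) h1
    rw [map_sum] at h2
    refine Eq.trans ?_ (h2.trans ?_)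
    · rfl
    · split_ifs <;> simp
  obtain ⟨e, he⟩ : ∃ e : Fin 3 → Derivation k K K, e = fun i => ∑ j, (B j i : K) • p j := ⟨_, rfl⟩
  have hea : ∀ i a, e i a = ∑ j, (B j i : K) * p j a := by
    intro i a
    rw [he]
    exact dsum _ _ _
  have hef : ∀ i l, e i (f l : K) = if l = i then 1 else 0 := by
    intro i l
    rw [hea, ← hJBa l i]
    refine Finset.sum_congr rfl fun j _ => ?_
    rw [hJa, mul_comm]
  have heO : ∀ i, ∀ a ∈ X.O y, e i a ∈ X.O y := by
    intro i a ha
    rw [hea]
    exact sum_mem fun j _ => mul_mem (B j i).2 (hpO j a ha)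
  have hcm : ∀ E : Derivation k K K, (∀ l, E (f l : K) = 0) → E = 0 := by
    intro E hE
    have h1 : E - ∑ j, (E (c j : K)) • p j = 0 := by
      refine der_zero hf c hc _ fun i => ?_
      rw [Derivation.sub_apply, sub_eq_zero, dsum]
      simp only [hp, mul_ite, mul_one, mul_zero, Finset.sum_ite_eq', Finset.mem_univ, if_true]
    have h2 : ∀ l, ∑ j, (J l j : K) * E (c j : K) = 0 := by
      intro l
      have h3 := congrArg (fun D : Derivation k K K => D (f l : K)) h1
      simp only [Derivation.sub_apply, dsum, Derivation.coe_zero, Pi.zero_apply, hE, zero_sub, neg_eq_zero] at h3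
      rw [← h3]
      refine Finset.sum_congr rfl fun j _ => ?_
      rw [hJa, mul_comm]
    refine der_zero hf c hc _ fun i => ?_
    have h4 : E (c i : K) = ∑ l, (B i l : K) * ∑ j, (J l j : K) * E (c j : K) := by
      simp only [Finset.mul_sum]
      rw [Finset.sum_comm]
      have h5 : ∀ j, ∑ l, (B i l : K) * ((J l j : K) * E (c j : K)) = (if i = j then 1 else 0) * E (c j : K) := by
        intro j
        rw [← hBJa i j, Finset.sum_mul]
        exact Finset.sum_congr rfl fun l _ => by ring
      simp only [h5, ite_mul, one_mul, zero_mul, Finset.sum_ite_eq, Finset.mem_univ, if_true]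
    rw [h4]
    simp only [h2, mul_zero, Finset.sum_const_zero]
  have hts : Submodule.span (X.O y) (Set.range fun i => KaehlerDifferential.D k (X.O y) (f i)) = ⊤ := by
    have h1 : ∀ g : X.O y, KaehlerDifferential.D k (X.O y) g =
        ∑ j, (dres (p j) (hpO j) g) • KaehlerDifferential.D k (X.O y) (c j) := by
      intro g
      have h3 : KaehlerDifferential.D k (X.O y) g ∈
          Submodule.span (X.O y) (Set.range fun i => KaehlerDifferential.D k (X.O y) (c i)) := by
        rw [hc]
        exact Submodule.mem_top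
      obtain ⟨a, ha⟩ := (Submodule.mem_span_range_iff_exists_fun (X.O y)).1 h3
      rw [← ha]
      refine Finset.sum_congr rfl fun i _ => ?_
      have h4 := congrArg (dres (p i) (hpO i)).liftKaehlerDifferential ha
      rw [map_sum, Derivation.liftKaehlerDifferential_comp_D] at h4
      have h5 : ∀ j, (dres (p i) (hpO i)).liftKaehlerDifferential
          (a j • KaehlerDifferential.D k (X.O y) (c j)) = if i = j then a j else 0 := by
        intro j
        rw [map_smul, Derivation.liftKaehlerDifferential_comp_D]
        have h6 : dres (p i) (hpO i) (c j) = if i = j then 1 else 0 := by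
          apply Subtype.ext
          rw [dres_apply, hp]
          split_ifs <;> rfl
        rw [h6]
        simp
      simp only [h5, Finset.sum_ite_eq, Finset.mem_univ, if_true] at h4
      rw [h4]
    rw [eq_top_iff, ← hc, Submodule.span_le]
    rintro _ ⟨i, rfl⟩
    change KaehlerDifferential.D k (X.O y) (c i) ∈ _
    have h2 : KaehlerDifferential.D k (X.O y) (c i) = ∑ l, B i l • KaehlerDifferential.D k (X.O y) (f l) := by
      have h3 : ∀ l, B i l • KaehlerDifferential.D k (X.O y) (f l) =
          ∑ j, (B i l * J l j) • KaehlerDifferential.D k (X.O y) (c j) := by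
        intro l
        rw [h1 (f l), Finset.smul_sum]
        refine Finset.sum_congr rfl fun j _ => ?_
        rw [smul_smul]
        have h4 : J l j = dres (p j) (hpO j) (f l) := by rw [hJ]; rfl
        rw [h4]
      simp only [h3]
      rw [Finset.sum_comm]
      have h5 : ∀ j, ∑ l, (B i l * J l j) • KaehlerDifferential.D k (X.O y) (c j) =
          (if i = j then (1 : X.O y) else 0) • KaehlerDifferential.D k (X.O y) (c j) := by
        intro j
        rw [← Finset.sum_smul]
        have h6 := congrFun (congrFun hBJ i) j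
        rw [Matrix.mul_apply, Matrix.one_apply] at h6
        rw [h6]
      simp only [h5, ite_smul, one_smul, zero_smul, Finset.sum_ite_eq, Finset.mem_univ, if_true]
    rw [h2]
    exact Submodule.sum_mem _ fun l _ => Submodule.smul_mem _ _ (Submodule.subset_span ⟨l, rfl⟩)
  obtain ⟨s, hs⟩ : ∃ s : Fin 3 → Fin 3, s = ![1, 2, 0] := ⟨_, rfl⟩
  have hs0 : s 0 = 1 := by rw [hs]; rfl
  have hs1 : s 1 = 2 := by rw [hs]; rfl
  have hs2 : s 2 = 0 := by rw [hs]; rfl
  have hsi : ∀ i j, s i = s j ↔ i = j := by
    rw [hs]
    decide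
  have hsr : Set.range s = Set.univ := by
    rw [Set.range_eq_univ]
    exact Finite.surjective_of_injective fun i j h => (hsi i j).1 h
  have hss : Function.Surjective s := by
    exact Finite.surjective_of_injective fun i j h => (hsi i j).1 h
  have hsd : ∀ i j, e (s i) (f (s j) : K) = if i = j then 1 else 0 := by
    intro i j
    rw [hef]
    simp only [hsi, eq_comm]
  have hz : ∀ i : Fin 3, i ≠ 2 → f (s i) ∈ IsLocalRing.maximalIdeal (X.O y) := by
    intro i hi
    fin_cases i
    · change f (s 0) ∈ _
      rw [hs0]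
      exact hf1
    · change f (s 1) ∈ _
      rw [hs1]
      exact hf2
    · exact absurd rfl hi
  refine ⟨fun i => e (s i), fun i => (f (s i) : K), ?_, ?_, ?_, ?_, ?_, ?_, ?_⟩
  · exact fun i a ha => heO _ a ha
  · intro i j a
    have h1 : ⁅e (s i), e (s j)⁆ = 0 := by
      refine hcm _ fun l => ?_
      rw [Derivation.commutator_apply, hef, hef]
      split_ifs <;> simp
    have h2 := congrArg (fun D : Derivation k K K => D a) h1
    simp only [Derivation.commutator_apply, Derivation.coe_zero, Pi.zero_apply] at h2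
    exact sub_eq_zero.1 h2
  · exact fun i => (f (s i)).2
  · exact hsd
  · intro D a
    have h1 : D - ∑ i, (D (f (s i) : K)) • e (s i) = 0 := by
      refine hcm _ fun l => ?_
      obtain ⟨l, rfl⟩ := hss l
      rw [Derivation.sub_apply, sub_eq_zero, dsum (fun i => D (f (s i) : K)) (fun i => e (s i))]
      simp only [hsd, mul_ite, mul_one, mul_zero, Finset.sum_ite_eq', Finset.mem_univ, if_true]
    have h2 := congrArg (fun D : Derivation k K K => D a) h1
    simp only [Derivation.coe_zero, Pi.zero_apply] at h2
    rw [Derivation.sub_apply, sub_eq_zero, dsum (fun i => D (f (s i) : K)) (fun i => e (s i))] at h2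
    exact h2
  · intro i hi
    exact (dif_pos (f (s i)).2).trans ((IsLocalRing.residue_eq_zero_iff _).2 (hz i hi))
  · intro a ha h0
    have h1 : (⟨a, ha⟩ : X.O y) ∈ IsLocalRing.maximalIdeal (X.O y) := by
      rw [← IsLocalRing.residue_eq_zero_iff]
      exact (dif_pos ha).symm.trans h0
    have h2 := der_tan (O := X.O y) hy (fun i => f (s i)) (by
        rw [← hts]
        congr 1
        ext v
        constructor
        · rintro ⟨i, rfl⟩
          exact ⟨s i, rfl⟩
        · rintro ⟨i, rfl⟩
          obtain ⟨j, rfl⟩ := hss i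
          exact ⟨j, rfl⟩) (fun i => dres (e (s i)) (heO (s i))) (fun i j => by
        apply Subtype.ext
        rw [dres_apply, hsd]
        split_ifs <;> rfl) (hz 0 (by decide)) (hz 1 (by decide)) ⟨a, ha⟩ h1
    have h3 : e (s 2) a ∈ X.O y := heO _ a ha
    exact (dif_pos h3).trans ((IsLocalRing.residue_eq_zero_iff _).2 h2)

end Pool.Agent.H43.WR
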