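import Pool.Agent.H43.WR.Jt3
import Pool.Agent.H43.WR.Coo
import Pool.Agent.H43.WR.Utr

/-!
# [H43 WR Nd] THEOREM WR (MP_e49dc9_ag): a jet at the curve whose derivations kill `u`

PROOF of `ex_jetU`.  `ex_jet3`: `d`, `t` at `y`.  `jac_det` (Coo) with `D = d`, `c = t`: `J a b e = ρ * det (d i a, d i b, d i e)`, `ρ = J (t 0) (t 1) (t 2)`;
`ρ / κ.eq y` is a unit of `X.O y` (`Jac.gen` at `y`, `Jac.mem`, `un_mul_iff`: as in `ex_coo`).
So `j := J u (t 0) (t 1) = ρ * d 2 u` (`det_fin_three`, dual).  `d 2 u` is a unit at `y`: `u ∈ X.O y` (`u_tr`), `d 2 u ∈ X.O y`; suppose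
`X.rs y (d 2 u) = 0`.  By `tan` the map `e : X.rs y f ↦ X.rs y (d 2 f)` is a well defined derivation of the field `X.kap y` over `k`; it is zero
on `X.rs y u`, which is transcendental, and `X.kap y` is algebraic over `k(X.rs y u)` (transcendence degree `1`), characteristic `0`: `e = 0`
(a derivation which is zero on a subfield is zero on the elements algebraic over it: minimal polynomial, separable).  But
`e (X.rs y (t 2)) = X.rs y (d 2 (t 2)) = 1`: a contradiction.  So `un`: `j / κ.eq y = (ρ / κ.eq y) * d 2 u` is a unit.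
New derivations: `δ 0 f := J u f (t 1) / j`, `δ 1 f := J u (t 0) f / j` (`Derivation k K K`: `Jac`), that is `δ 0 = d 0 - (d 0 u / d 2 u) • d 2`,
`δ 1 = d 1 - (d 1 u / d 2 u) • d 2` (define them in this way, it is easier).  `δ i (t j) = δ_ij` for `i j < 2`, `δ i u = 0`, they preserve `X.O y`
(`d 2 u` is a unit at `y`).  They commute: the commutator `δ 0 δ 1 - δ 1 δ 0` is a derivation, which is zero at `t 0`, `t 1` and `u`; by `span` a derivation
`E` with `E (t 0) = E (t 1) = 0` is `E (t 2) • d 2`, and `0 = E u = E (t 2) * d 2 u`, so `E = 0`.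
`jac`: `J u f g = ρ * det (d i u, d i f, d i g)` and `ρ * d 2 u * (δ 0 f * δ 1 g - δ 1 f * δ 0 g)` are equal: expand both (`det_fin_three`, `field_simp`, `ring`).
`uun`: `u_tr`.
-/

set_option autoImplicit false

namespace Pool.Agent.H43.WR

open Pool.Agent.H54.RV Pool.Agent.H83.TU Pool.Agent.H83.TK Pool.Agent.H20.TD Pool.Agent.H20.TP Pool.Agent.H89.RS

variable {k K : Type} [Field k] [Field K] [Algebra k K] {X : Mod k K} {J : K → K → K → K} {κ F : Cart X} {u : K}

/-- a derivation of the local ring which respects the maximal ideal is zero modulo it if it is zero at `u` -/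
private theorem nd_alg {O : Subalgebra k K} [CharZero k] [IsLocalRing O] (p : Derivation k O O)
    (hm : ∀ f ∈ IsLocalRing.maximalIdeal O, p f ∈ IsLocalRing.maximalIdeal O)
    (hy : Algebra.trdeg k (IsLocalRing.ResidueField O) = 1) (v : O)
    (htr : Transcendental k (IsLocalRing.residue O v)) (h0 : IsLocalRing.residue O (p v) = 0) (f : O) :
    IsLocalRing.residue O (p f) = 0 := by
  have hli : ∀ x : IsLocalRing.ResidueField O, ∃ a : O, IsLocalRing.residue O a = x := IsLocalRing.residue_surjective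
  choose s hs using hli
  have hwd : ∀ a b : O, IsLocalRing.residue O a = IsLocalRing.residue O b →
      IsLocalRing.residue O (p a) = IsLocalRing.residue O (p b) := by
    intro a b hab
    have h1 := hm (a - b) (by rw [← IsLocalRing.residue_eq_zero_iff, map_sub, hab, sub_self])
    rw [← IsLocalRing.residue_eq_zero_iff, map_sub, map_sub] at h1
    exact sub_eq_zero.1 h1
  let δ : Derivation k (IsLocalRing.ResidueField O) (IsLocalRing.ResidueField O) :=
    Derivation.mk'
      { toFun := fun x => IsLocalRing.residue O (p (s x))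
        map_add' := fun a b => by
          rw [← map_add, ← map_add]
          refine hwd _ _ ?_
          rw [hs, map_add, hs, hs]
        map_smul' := fun r a => by
          have h2 : ∀ z : O, IsLocalRing.residue O (r • z) = r • IsLocalRing.residue O z := fun z => rfl
          have h1 : IsLocalRing.residue O (p (s (r • a))) = IsLocalRing.residue O (p (r • s a)) := by
            refine hwd _ _ ?_
            rw [hs, h2, hs]
          rw [h1, Derivation.map_smul, h2]
          rfl }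
      (fun a b => by
        change IsLocalRing.residue O (p (s (a * b))) =
          a • IsLocalRing.residue O (p (s b)) + b • IsLocalRing.residue O (p (s a))
        have h1 : IsLocalRing.residue O (p (s (a * b))) = IsLocalRing.residue O (p (s a * s b)) := by
          refine hwd _ _ ?_
          rw [hs, map_mul, hs, hs]
        rw [h1, Derivation.leibniz, smul_eq_mul, smul_eq_mul, map_add, map_mul, map_mul, hs, hs, smul_eq_mul,
          smul_eq_mul])
  have hδa : ∀ a : O, δ (IsLocalRing.residue O a) = IsLocalRing.residue O (p a) := by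
    intro a
    change IsLocalRing.residue O (p (s (IsLocalRing.residue O a))) = _
    exact hwd _ _ (hs _)
  have hbas : IsTranscendenceBasis k (fun _ : Fin 1 => IsLocalRing.residue O v) := by
    have h1 : AlgebraicIndependent k (fun _ : Fin 1 => IsLocalRing.residue O v) := by
      rw [algebraicIndependent_unique_type_iff]
      exact htr
    refine h1.isTranscendenceBasis_of_trdeg_le_of_finite ?_
    rw [Cardinal.mk_fin, hy]
    norm_num
  have hδ : δ = 0 := by
    refine Pool.Agent.H24.TU.derivation_eq_zero hbas δ fun i => ?_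
    rw [hδa v, h0]
  rw [← hδa f, hδ]
  rfl

private theorem nd_pos {y : X.P} {a : K} (ha : a ∈ X.O y) : X.rs y a = IsLocalRing.residue (X.O y) ⟨a, ha⟩ := by
  exact dif_pos ha

private theorem nd_tan [CharZero k] {y : X.P} (hy : Algebra.trdeg k (X.kap y) = 1) (D : Derivation k K K)
    (hD : ∀ f ∈ X.O y, D f ∈ X.O y) (htan : ∀ f ∈ X.O y, X.rs y f = 0 → X.rs y (D f) = 0)
    (hu : u ∈ X.O y) (htr : Transcendental k (X.rs y u)) (h0 : X.rs y (D u) = 0) (f : K) (hf : f ∈ X.O y) :
    X.rs y (D f) = 0 := by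
  let p : Derivation k (X.O y) (X.O y) :=
    Derivation.mk'
      { toFun := fun f => ⟨D f, hD f f.2⟩
        map_add' := fun a b => Subtype.ext (map_add D (a : K) (b : K))
        map_smul' := fun r a => Subtype.ext (D.map_smul r (a : K)) }
      (fun a b => Subtype.ext (D.leibniz (a : K) (b : K)))
  have hp : ∀ g : X.O y, p g = ⟨D g, hD g g.2⟩ := fun g => rfl
  rw [nd_pos (hD f hf)]
  rw [nd_pos (hD u hu)] at h0
  rw [nd_pos hu] at htr
  refine nd_alg p ?_ hy ⟨u, hu⟩ htr h0 ⟨f, hf⟩
  intro g hg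
  rw [← IsLocalRing.residue_eq_zero_iff] at hg ⊢
  have h1 := htan g g.2 (by rw [nd_pos g.2]; exact hg)
  rw [nd_pos (hD g g.2)] at h1
  exact h1

theorem ex_jetU [CharZero k] [IsAlgClosed k] (hS : Pool.Agent.H20.TU.SmP X) (h : Hyp X) (hJ : Jac X J κ)
    (hP : Pu X F u) {y : X.P} (hy : Algebra.trdeg k (X.kap y) = 1) (hf : 0 < dz h.var y F) :
    ∃ (d : Fin 2 → Derivation k K K) (t : Fin 2 → K), JetU X y J κ u d t := by
  obtain ⟨d, t, h3⟩ := ex_jet3 hS h hy
  obtain ⟨hu, -, htr⟩ := u_tr h hP hy hf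
  have hdet := fun a b e => jac_det hJ h3.span a b e
  set ρ := J (t 0) (t 1) (t 2) with hρ
  -- the determinant
  have hdet' : ∀ a b e, J a b e = ρ * (d 0 a * d 1 b * d 2 e - d 0 a * d 2 b * d 1 e - d 1 a * d 0 b * d 2 e
      + d 1 a * d 2 b * d 0 e + d 2 a * d 0 b * d 1 e - d 2 a * d 1 b * d 0 e) := by
    intro a b e
    rw [hdet a b e, Matrix.det_fin_three]
    rfl
  have hρO : ρ / κ.eq y ∈ X.O y := hJ.mem y _ (h3.mem 0) _ (h3.mem 1) _ (h3.mem 2)
  have hρu : Un (X.O y) (ρ / κ.eq y) := by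
    obtain ⟨a, ha, b, hb, e, he, hun⟩ := hJ.gen y
    rw [hdet' a b e, mul_div_right_comm] at hun
    refine ((un_mul_iff hρO ?_).1 hun).1
    have hs : ∀ i, ∀ f ∈ X.O y, d i f ∈ X.O y := h3.st
    exact sub_mem (add_mem (add_mem (sub_mem (sub_mem
      (mul_mem (mul_mem (hs 0 a ha) (hs 1 b hb)) (hs 2 e he))
      (mul_mem (mul_mem (hs 0 a ha) (hs 2 b hb)) (hs 1 e he)))
      (mul_mem (mul_mem (hs 1 a ha) (hs 0 b hb)) (hs 2 e he)))
      (mul_mem (mul_mem (hs 1 a ha) (hs 2 b hb)) (hs 0 e he)))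
      (mul_mem (mul_mem (hs 2 a ha) (hs 0 b hb)) (hs 1 e he)))
      (mul_mem (mul_mem (hs 2 a ha) (hs 1 b hb)) (hs 0 e he))
  -- the derivative of `u` along the curve
  have hDu : Un (X.O y) (d 2 u) := by
    rw [← rs_ne y (h3.st 2 u hu.2.1)]
    intro h0
    have h1 := nd_tan hy (d 2) (h3.st 2) h3.tan hu.2.1 htr h0 (t 2) (h3.mem 2)
    rw [h3.dual, if_pos rfl, rs_one] at h1
    exact one_ne_zero h1
  have hD0 : d 2 u ≠ 0 := hDu.1
  obtain ⟨δ, hδ⟩ : ∃ δ : Fin 2 → Derivation k K K,
      δ = fun i => d i.castSucc - (d i.castSucc u / d 2 u) • d 2 := ⟨_, rfl⟩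
  have hδa : ∀ i f, δ i f = d i.castSucc f - (d i.castSucc u / d 2 u) * d 2 f := by
    intro i f
    rw [hδ]
    rfl
  have hδt : ∀ i j : Fin 2, δ i (t j.castSucc) = if i = j then 1 else 0 := by
    intro i j
    rw [hδa, h3.dual, h3.dual]
    have h1 : (2 : Fin 3) ≠ j.castSucc := by
      intro h2
      have := congrArg Fin.val h2
      have := j.2
      simp at *
      omega
    rw [if_neg h1, mul_zero, sub_zero]
    simp only [Fin.castSucc_inj]
  have hδu : ∀ i, δ i u = 0 := by
    intro i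
    rw [hδa, div_mul_cancel₀ _ hD0, sub_self]
  have hJt : J u (t 0) (t 1) = ρ * d 2 u := by
    rw [hdet']
    have e00 : d 0 (t 0) = 1 := by rw [h3.dual]; rfl
    have e10 : d 1 (t 0) = 0 := by rw [h3.dual]; rfl
    have e20 : d 2 (t 0) = 0 := by rw [h3.dual]; rfl
    have e01 : d 0 (t 1) = 0 := by rw [h3.dual]; rfl
    have e11 : d 1 (t 1) = 1 := by rw [h3.dual]; rfl
    have e21 : d 2 (t 1) = 0 := by rw [h3.dual]; rfl
    rw [e00, e10, e20, e01, e11, e21]
    ring
  have hδ0 : ∀ f, δ 0 f = d 0 f - (d 0 u / d 2 u) * d 2 f := hδa 0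
  have hδ1 : ∀ f, δ 1 f = d 1 f - (d 1 u / d 2 u) * d 2 f := hδa 1
  refine ⟨δ, fun i => t i.castSucc, ⟨⟨?_, ?_, ?_, ?_, ?_⟩, hδu, hu, ?_, ?_⟩⟩
  · intro i f hf'
    rw [hδa]
    refine sub_mem (h3.st _ f hf') (mul_mem ?_ (h3.st _ f hf'))
    rw [div_eq_mul_inv]
    exact mul_mem (h3.st _ u hu.2.1) hDu.2.2
  · intro f
    have h1 : ∀ g, (⁅δ 0, δ 1⁆ : Derivation k K K) g = δ 0 (δ 1 g) - δ 1 (δ 0 g) := fun g =>
      Derivation.commutator_apply ..
    have hz : ∀ j : Fin 2, (⁅δ 0, δ 1⁆ : Derivation k K K) (t j.castSucc) = 0 := by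
      intro j
      rw [h1, hδt, hδt]
      split_ifs <;> simp
    have hzu : (⁅δ 0, δ 1⁆ : Derivation k K K) u = 0 := by
      rw [h1, hδu, hδu]
      simp
    have h2 : ∀ g, (⁅δ 0, δ 1⁆ : Derivation k K K) g = (⁅δ 0, δ 1⁆ : Derivation k K K) (t 2) * d 2 g := by
      intro g
      rw [h3.span ⁅δ 0, δ 1⁆ g, Fin.sum_univ_three]
      have e0 := hz 0
      have e1 := hz 1
      change (⁅δ 0, δ 1⁆ : Derivation k K K) (t 0) = 0 at e0
      change (⁅δ 0, δ 1⁆ : Derivation k K K) (t 1) = 0 at e1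
      rw [e0, e1, zero_mul, zero_mul, zero_add, zero_add]
    have h4 : (⁅δ 0, δ 1⁆ : Derivation k K K) (t 2) = 0 := by
      have h5 := h2 u
      rw [hzu] at h5
      exact (mul_eq_zero.1 h5.symm).resolve_right hD0
    have h6 := h2 f
    rw [h4, zero_mul, h1] at h6
    exact sub_eq_zero.1 h6
  · intro i
    exact h3.mem _
  · intro i
    refine h3.zero _ ?_
    intro h2
    have := congrArg Fin.val h2
    have := i.2
    simp at *
    omega
  · exact hδt
  · change Un (X.O y) (J u (t 0) (t 1) / κ.eq y)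
    rw [hJt, mul_div_right_comm]
    exact un_mul hρu hDu
  · intro f g
    change J u f g = J u (t 0) (t 1) * (δ 0 f * δ 1 g - δ 1 f * δ 0 g)
    rw [hJt, hdet', hδ0, hδ0, hδ1, hδ1]
    field_simp
    ring

end Pool.Agent.H43.WR
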